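import Pool.Agent.H9.LS.Defs

/-!
# Coherent families of finite-to-one functions on countable sets
-/

open Set Cardinal

namespace Pool.Agent.H9.LS

/-- `g` is a coherent family of finite-to-one functions on the sets `C ∈ J`. -/
def Sys {L : Type} (J : Set (Set L)) (g : Set L → L → ℕ) : Prop :=
  (∀ C ∈ J, ∀ k, {x | x ∈ C ∧ g C x ≤ k}.Finite) ∧
  ∀ C ∈ J, ∀ D ∈ J, {x | x ∈ C ∧ x ∈ D ∧ g C x ≠ g D x}.Finite

/-- The countable subsets of `A n`, `n ∈ ℕ`. -/
def Cb {L : Type} (A : ℕ → Set L) : Set (Set L) := {C | C.Countable ∧ ∃ n, C ⊆ A n}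

variable {L : Type}

theorem Sys.mono {J J' : Set (Set L)} {g : Set L → L → ℕ} (h : Sys J g) (hJ : J' ⊆ J) : Sys J' g :=
  ⟨fun C hC => h.1 C (hJ hC), fun C hC D hD => h.2 C (hJ hC) D (hJ hD)⟩

/-- A finite change. -/
theorem Sys.congr {J : Set (Set L)} {g g' : Set L → L → ℕ} (h : Sys J g)
    (hg : ∀ C ∈ J, {x | x ∈ C ∧ g' C x ≠ g C x}.Finite) : Sys J g' := by
  refine ⟨fun C hC k => ?_, fun C hC D hD => ?_⟩
  · refine ((h.1 C hC k).union (hg C hC)).subset ?_
    rintro x ⟨hx1, hx2⟩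
    by_cases h1 : g' C x = g C x
    · exact Or.inl ⟨hx1, by rw [← h1]; exact hx2⟩
    · exact Or.inr ⟨hx1, h1⟩
  · refine (((h.2 C hC D hD).union (hg C hC)).union (hg D hD)).subset ?_
    rintro x ⟨hx1, hx2, hx3⟩
    by_cases h1 : g' C x = g C x
    · by_cases h2 : g' D x = g D x
      · exact Or.inl (Or.inl ⟨hx1, hx2, by rw [← h1, ← h2]; exact hx3⟩)
      · exact Or.inr ⟨hx2, h2⟩
    · exact Or.inl (Or.inr ⟨hx1, h1⟩)

/-- The extension property: a coherent family on the countable subsets of the sets `A n`, `n ∈ ℕ`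
(increasing subsets of `T`), extends to the countable subsets of `T`. -/
def Ext (κ : Cardinal.{0}) : Prop :=
  ∀ (L : Type) (T : Set L), #T ≤ κ → ∀ A : ℕ → Set L, Monotone A → (∀ n, A n ⊆ T) →
    ∀ g : Set L → L → ℕ, Sys (Cb A) g →
      ∃ g' : Set L → L → ℕ, Sys {C | C.Countable ∧ C ⊆ T} g' ∧ ∀ C ∈ Cb A, g' C = g C

/-- The countable case. -/
theorem ext_aleph0 : Ext ℵ₀ := by
  classical
  intro L T hT A hA hAT g hg
  have hTc : T.Countable := le_aleph0_iff_set_countable.1 hT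
  obtain ⟨ι, hι⟩ := Set.countable_iff_exists_injOn.1 hTc
  -- the first index
  set lv : L → ℕ := fun x => if h : ∃ n, x ∈ A n then Nat.find h else 0 with hlv
  have hlv1 : ∀ x n, x ∈ A n → x ∈ A (lv x) ∧ lv x ≤ n := by
    intro x n hx
    have h : ∃ n, x ∈ A n := ⟨n, hx⟩
    rw [hlv]
    simp only [h, dif_pos]
    exact ⟨Nat.find_spec h, Nat.find_min' h hx⟩
  set H : L → ℕ := fun x => if ∃ n, x ∈ A n then max (g (A (lv x)) x) (lv x) else ι x with hH
  have hAc : ∀ n, A n ∈ Cb A := fun n => ⟨hTc.mono (hAT n), n, Subset.rfl⟩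
  -- on `A n` the function `H` is `g (A n)` up to a finite set
  have h1 : ∀ n, {x | x ∈ A n ∧ H x ≠ g (A n) x}.Finite := by
    intro n
    have h2 : (⋃ j ∈ Finset.range (n + 1), ({x | x ∈ A j ∧ g (A j) x ≤ j} ∪
        {x | x ∈ A j ∧ x ∈ A n ∧ g (A j) x ≠ g (A n) x})).Finite := by
      refine Set.Finite.biUnion (Finset.finite_toSet _) fun j _ => ?_
      exact (hg.1 _ (hAc j) j).union (hg.2 _ (hAc j) _ (hAc n))
    refine h2.subset ?_
    rintro x ⟨hx1, hx2⟩
    obtain ⟨h3, h4⟩ := hlv1 x n hx1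
    refine mem_biUnion (x := lv x) (by simpa using Nat.lt_succ_of_le h4) ?_
    have h5 : H x = max (g (A (lv x)) x) (lv x) := by
      rw [hH]
      simp only
      rw [if_pos ⟨n, hx1⟩]
    by_cases h6 : g (A (lv x)) x ≤ lv x
    · exact Or.inl ⟨h3, h6⟩
    · right
      refine ⟨h3, hx1, ?_⟩
      rw [h5, max_eq_left (not_le.1 h6).le] at hx2
      exact hx2
  have h2 : ∀ k, {x | x ∈ T ∧ H x ≤ k}.Finite := by
    intro k
    have h3 : ((⋃ j ∈ Finset.range (k + 1), {x | x ∈ A j ∧ g (A j) x ≤ k}) ∪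
        {x | x ∈ T ∧ ι x ≤ k}).Finite := by
      refine Set.Finite.union (Set.Finite.biUnion (Finset.finite_toSet _) fun j _ =>
        hg.1 _ (hAc j) k) ?_
      refine Set.Finite.of_finite_image (f := ι) ((finite_le_nat k).subset ?_) ?_
      · rintro _ ⟨x, ⟨-, hx⟩, rfl⟩
        exact hx
      · exact hι.mono fun x hx => hx.1
    refine h3.subset ?_
    rintro x ⟨hx1, hx2⟩
    by_cases hx3 : ∃ n, x ∈ A n
    · left
      obtain ⟨n, hn⟩ := hx3
      have h5 : H x = max (g (A (lv x)) x) (lv x) := by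
        rw [hH]
        simp only
        rw [if_pos ⟨n, hn⟩]
      rw [h5] at hx2
      have h6 : lv x ≤ k := (le_max_right _ _).trans hx2
      exact mem_biUnion (x := lv x) (by simpa using Nat.lt_succ_of_le h6)
        ⟨(hlv1 x n hn).1, (le_max_left _ _).trans hx2⟩
    · right
      refine ⟨hx1, ?_⟩
      have h5 : H x = ι x := by
        rw [hH]
        simp only
        rw [if_neg hx3]
      rw [← h5]
      exact hx2
  refine ⟨fun C => if C ∈ Cb A then g C else H, ?_, fun C hC => if_pos hC⟩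
  have h3 : Sys {C : Set L | C.Countable ∧ C ⊆ T} (fun _ => H) := by
    refine ⟨fun C hC k => (h2 k).subset ?_, fun C hC D hD => ?_⟩
    · rintro x ⟨hx1, hx2⟩
      exact ⟨hC.2 hx1, hx2⟩
    · simp only [ne_eq, not_true_eq_false, and_false]
      exact finite_empty
  refine h3.congr ?_
  intro C _
  by_cases hC2 : C ∈ Cb A
  · obtain ⟨hC3, n, hn⟩ := hC2
    refine ((h1 n).union (hg.2 C ⟨hC3, n, hn⟩ _ (hAc n))).subset ?_
    rintro x ⟨hx1, hx2⟩
    rw [if_pos (show C ∈ Cb A from ⟨hC3, n, hn⟩)] at hx2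
    by_cases h4 : g C x = g (A n) x
    · left
      refine ⟨hn hx1, ?_⟩
      rw [← h4]
      exact fun h => hx2 h.symm
    · exact Or.inr ⟨hx1, hn hx1, h4⟩
  · simp only [hC2, if_false, ne_eq, not_true_eq_false, and_false]
    exact finite_empty

end Pool.Agent.H9.LS
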