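import Pool.Agent.H58.SEL.Fan

/-!
# Selective spaces from coherent families: the space

`Core L` collects the combinatorial data on an index set `L`; `Sp c` is the space.
-/

open Filter Topology Set Pool.Agent.H58.SEL

namespace Pool.Agent.H9.LS

/-- The combinatorial data: functions `f h`, `h ∈ L`, which dominate all functions, and a family
`E` of countably supported functions on `L`. -/
structure Core (L : Type) where
  f : L → ℕ → ℕ
  E : Set (L → ℕ)
  supp : ∀ e ∈ E, {h | e h ≠ 0}.Countable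
  sup_mem : ∀ e ∈ E, ∀ e' ∈ E, (fun h => max (e h) (e' h)) ∈ E
  trace : ∀ D : Set L, D.Countable → ∃ g : ℕ → L → ℕ, (∀ j, g j ∈ E) ∧
    (∀ i j, i ≤ j → ∀ h, g i h ≤ g j h) ∧ ∀ e ∈ E, ∃ j, ∀ h ∈ D, e h ≤ max (g j h) j
  kill : ∀ s : ℕ → ℕ → L, (∀ n m, m ≤ f (s n m) n) →
    ∃ e ∈ E, ∀ N, ∃ n ≥ N, ∃ m, n < e (s n m)
  dom : ∀ g : ℕ → ℕ, ∃ h, ∀ᶠ n in atTop, g n ≤ f h n
  unc : ∀ n m, ¬ {h | m ≤ f h n}.Countable

variable {L : Type}

/-- The points other than `∞`. -/
structure Pt (c : Core L) where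
  n : ℕ
  m : ℕ
  h : L
  le : m ≤ c.f h n

/-- The space: the points of `Pt c` and the point `∞ = none`. -/
def Sp (c : Core L) : Type := Option (Pt c)

/-- The point `∞`. -/
def oo (c : Core L) : Sp c := (none : Option (Pt c))

/-- The other points. -/
def inc {c : Core L} (x : Pt c) : Sp c := (some x : Option (Pt c))

variable {c : Core L}

theorem inc_ne (x : Pt c) : inc x ≠ oo c := Option.some_ne_none x

theorem inc_inj {x y : Pt c} (h : inc x = inc y) : x = y := Option.some_injective _ h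

theorem sp_cases (z : Sp c) : z = oo c ∨ ∃ x, z = inc x := by
  rcases z with _ | x
  · exact Or.inl rfl
  · exact Or.inr ⟨x, rfl⟩

/-- The closed sets: the fibres are countable or full, and if `∞` is not in `G` then, for some `N`
and some `e ∈ E`, all points `(n, m, h)` of `G` satisfy `n < N` or `n < e h`. -/
def Cl (c : Core L) (G : Set (Sp c)) : Prop :=
  (∀ n m, {x : Pt c | x.n = n ∧ x.m = m ∧ inc x ∈ G}.Countable ∨
    ∀ x : Pt c, x.n = n → x.m = m → inc x ∈ G) ∧
  (oo c ∈ G ∨ ∃ N : ℕ, ∃ e ∈ c.E, ∀ x : Pt c, inc x ∈ G → x.n < N ∨ x.n < e x.h)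

theorem exists_mem (c : Core L) : ∃ e, e ∈ c.E := by
  obtain ⟨g, hg, -⟩ := c.trace ∅ countable_empty
  exact ⟨g 0, hg 0⟩

instance (c : Core L) : TopologicalSpace (Sp c) :=
  TopologicalSpace.ofClosed {G | Cl c G}
    (by
      refine ⟨fun n m => Or.inl ?_, Or.inr ?_⟩
      · refine countable_empty.mono ?_
        rintro x ⟨-, -, hx⟩
        exact hx
      · obtain ⟨e, he⟩ := exists_mem c
        exact ⟨0, e, he, fun x hx => hx.elim⟩)
    (by
      intro A hA
      refine ⟨fun n m => ?_, ?_⟩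
      · by_cases h : ∀ G ∈ A, ∀ x : Pt c, x.n = n → x.m = m → inc x ∈ G
        · right
          intro x hx1 hx2 G hG
          exact h G hG x hx1 hx2
        · left
          push Not at h
          obtain ⟨G, hG, x, hx1, hx2, hx3⟩ := h
          rcases (hA hG).1 n m with h1 | h1
          · refine h1.mono ?_
            rintro y ⟨hy1, hy2, hy3⟩
            exact ⟨hy1, hy2, hy3 G hG⟩
          · exact absurd (h1 x hx1 hx2) hx3
      · by_cases h : ∀ G ∈ A, oo c ∈ G
        · left
          exact h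
        · right
          push Not at h
          obtain ⟨G, hG, h1⟩ := h
          rcases (hA hG).2 with h2 | ⟨N, e, he, h2⟩
          · exact absurd h2 h1
          · exact ⟨N, e, he, fun x hx => h2 x (hx G hG)⟩)
    (by
      intro A hA B hB
      refine ⟨fun n m => ?_, ?_⟩
      · rcases hA.1 n m with h1 | h1
        · rcases hB.1 n m with h2 | h2
          · left
            refine (h1.union h2).mono ?_
            rintro y ⟨hy1, hy2, hy3⟩
            rcases hy3 with hy3 | hy3
            · exact Or.inl ⟨hy1, hy2, hy3⟩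
            · exact Or.inr ⟨hy1, hy2, hy3⟩
          · right
            intro x hx1 hx2
            exact Or.inr (h2 x hx1 hx2)
        · right
          intro x hx1 hx2
          exact Or.inl (h1 x hx1 hx2)
      · rcases hA.2 with h1 | ⟨N, e, he, h1⟩
        · exact Or.inl (Or.inl h1)
        · rcases hB.2 with h2 | ⟨N', e', he', h2⟩
          · exact Or.inl (Or.inr h2)
          · right
            refine ⟨max N N', _, c.sup_mem e he e' he', ?_⟩
            intro x hx
            rcases hx with hx | hx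
            · rcases h1 x hx with h3 | h3
              · exact Or.inl (lt_of_lt_of_le h3 (le_max_left _ _))
              · exact Or.inr (lt_of_lt_of_le h3 (le_max_left _ _))
            · rcases h2 x hx with h3 | h3
              · exact Or.inl (lt_of_lt_of_le h3 (le_max_right _ _))
              · exact Or.inr (lt_of_lt_of_le h3 (le_max_right _ _)))

theorem isClosed_sp {G : Set (Sp c)} : IsClosed G ↔ Cl c G := by
  rw [← isOpen_compl_iff]
  change Cl c (Gᶜᶜ) ↔ _
  rw [compl_compl]

/-- No fibre is countable. -/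
theorem fibre_unc (c : Core L) (n m : ℕ) : ¬ {x : Pt c | x.n = n ∧ x.m = m}.Countable := by
  intro h
  apply c.unc n m
  refine (h.image fun x => x.h).mono ?_
  intro h0 h1
  exact ⟨⟨n, m, h0, h1⟩, ⟨rfl, rfl⟩, rfl⟩

/-- The part of a fibre on which a function of `E` is positive is countable. -/
theorem fibre_supp {e : L → ℕ} (he : e ∈ c.E) (n m : ℕ) :
    {x : Pt c | x.n = n ∧ x.m = m ∧ e x.h ≠ 0}.Countable := by
  have h1 : (({x : Pt c | x.n = n ∧ x.m = m ∧ e x.h ≠ 0}).image fun x => x.h).Countable := by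
    refine (c.supp e he).mono ?_
    rintro _ ⟨x, ⟨-, -, hx⟩, rfl⟩
    exact hx
  refine countable_of_injective_of_countable_image (f := fun x : Pt c => x.h) ?_ h1
  rintro ⟨n1, m1, h1, l1⟩ ⟨hx1, hx2, -⟩ ⟨n2, m2, h2, l2⟩ ⟨hy1, hy2, -⟩ hxy
  simp only at hx1 hx2 hy1 hy2 hxy
  subst hx1 hx2 hy1 hy2 hxy
  rfl

/-- A fibre is not contained in a set of the special form. -/
theorem exists_fibre {e : L → ℕ} (he : e ∈ c.E) (n m : ℕ) :
    ∃ x : Pt c, x.n = n ∧ x.m = m ∧ e x.h = 0 := by
  by_contra hc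
  push Not at hc
  apply fibre_unc c n m
  refine (fibre_supp he n m).mono ?_
  rintro x ⟨hx1, hx2⟩
  exact ⟨hx1, hx2, hc x hx1 hx2⟩

theorem closed_of_countable {G : Set (Sp c)} (N : ℕ) {e : L → ℕ} (he : e ∈ c.E)
    (h : ∀ x : Pt c, inc x ∈ G → x.n < N ∨ x.n < e x.h)
    (hN : ∀ n < N, ∀ m, {x : Pt c | x.n = n ∧ x.m = m ∧ inc x ∈ G}.Countable ∨
      ∀ x : Pt c, x.n = n → x.m = m → inc x ∈ G) : IsClosed G := by
  rw [isClosed_sp]
  refine ⟨fun n m => ?_, Or.inr ⟨N, e, he, h⟩⟩
  by_cases hn : n < N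
  · exact hN n hn m
  · left
    refine (fibre_supp he n m).mono ?_
    rintro x ⟨hx1, hx2, hx3⟩
    refine ⟨hx1, hx2, ?_⟩
    rcases h x hx3 with h1 | h1
    · omega
    · omega

instance (c : Core L) : T1Space (Sp c) := by
  refine ⟨fun z => ?_⟩
  obtain ⟨e, he⟩ := exists_mem c
  rcases sp_cases z with rfl | ⟨x, rfl⟩
  · rw [isClosed_sp]
    refine ⟨fun n m => Or.inl ?_, Or.inl rfl⟩
    refine (countable_empty).mono ?_
    rintro x ⟨-, -, hx⟩
    exact (inc_ne x hx).elim
  · refine closed_of_countable (x.n + 1) he ?_ ?_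
    · intro y hy
      rw [inc_inj hy]
      exact Or.inl (Nat.lt_succ_self _)
    · intro n _ m
      left
      refine (countable_singleton x).mono ?_
      rintro y ⟨-, -, hy⟩
      exact inc_inj hy

theorem nhds_oo {G : Set (Sp c)} (hG : IsClosed G) (h : oo c ∉ G) : Gᶜ ∈ 𝓝 (oo c) :=
  hG.isOpen_compl.mem_nhds h

/-- Convergence to `∞`. -/
theorem tendsto_oo {a : ℕ → Sp c}
    (h1 : ∀ N : ℕ, ∀ᶠ k in atTop, ∀ x, a k = inc x → N ≤ x.n)
    (h2 : ∀ e ∈ c.E, ∀ᶠ k in atTop, ∀ x, a k = inc x → e x.h ≤ x.n) :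
    Tendsto a atTop (𝓝 (oo c)) := by
  intro U hU
  obtain ⟨V, hV1, hV2, hV3⟩ := mem_nhds_iff.1 hU
  have hG : Cl c Vᶜ := isClosed_sp.1 hV2.isClosed_compl
  rcases hG.2 with h3 | ⟨N, e, he, h3⟩
  · exact absurd hV3 h3
  · change ∀ᶠ k in atTop, a k ∈ U
    filter_upwards [h1 N, h2 e he] with k hk1 hk2
    refine hV1 ?_
    by_contra hc
    rcases sp_cases (a k) with h4 | ⟨x, h4⟩
    · rw [h4] at hc
      exact hc hV3
    · rcases h3 x (by rw [← h4]; exact hc) with h5 | h5
      · have := hk1 x h4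
        omega
      · have := hk2 x h4
        omega

/-- The space is not selective for the rationals. -/
theorem not_selective (c : Core L) : ¬ Selective ℚ (Sp c) := by
  intro hQ
  have hP : ∀ n m, IsClosed {z : Sp c | ∃ x : Pt c, x.n = n ∧ x.m = m ∧ z = inc x} := by
    intro n m
    obtain ⟨e, he⟩ := exists_mem c
    refine closed_of_countable (n + 1) he ?_ ?_
    · rintro x ⟨y, hy1, -, hy⟩
      rw [inc_inj hy]
      left
      omega
    · intro n' _ m'
      by_cases h : n' = n ∧ m' = m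
      · right
        intro x hx1 hx2
        exact ⟨x, by rw [hx1, h.1], by rw [hx2, h.2], rfl⟩
      · left
        refine (countable_empty).mono ?_
        rintro x ⟨hx1, hx2, y, hy1, hy2, hy⟩
        have := inc_inj hy
        subst this
        exact h ⟨by rw [← hx1, hy1], by rw [← hx2, hy2]⟩
  obtain ⟨p, hp1, hp2⟩ := fan_selective hQ
    (fun n m => {z : Sp c | ∃ x : Pt c, x.n = n ∧ x.m = m ∧ z = inc x}) (oo c)
    isClosed_singleton hP (by
      intro n m
      obtain ⟨e, he⟩ := exists_mem c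
      obtain ⟨x, hx1, hx2, -⟩ := exists_fibre he n m
      exact ⟨inc x, x, hx1, hx2, rfl⟩) (by
      intro U hU hoU
      have hG : Cl c Uᶜ := isClosed_sp.1 hU.isClosed_compl
      rcases hG.2 with h3 | ⟨N, e, he, h3⟩
      · exact absurd hoU h3
      · refine ⟨N, fun n hn m => ?_⟩
        obtain ⟨x, hx1, hx2, hx3⟩ := exists_fibre he n m
        refine ⟨inc x, ⟨x, hx1, hx2, rfl⟩, ?_⟩
        by_contra hc
        rcases h3 x hc with h4 | h4 <;> omega)
  choose x hx1 hx2 hx3 using hp1
  obtain ⟨e, he, hk⟩ := c.kill (fun n m => (x n m).h) (by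
    intro n m
    have h1 := (x n m).le
    rw [hx2, hx1] at h1
    exact h1)
  have hG : IsClosed {z : Sp c | ∃ y : Pt c, y.n < e y.h ∧ z = inc y} := by
    refine closed_of_countable 0 he ?_ ?_
    · rintro y ⟨y', h1, h2⟩
      rw [inc_inj h2]
      exact Or.inr h1
    · intro n hn
      omega
  obtain ⟨N, hN⟩ := hp2 _ hG.isOpen_compl (by
    rintro ⟨y, -, hy⟩
    exact inc_ne y hy.symm)
  obtain ⟨n, hn, m, hm⟩ := hk N
  apply hN n hn m
  refine ⟨x n m, ?_, hx3 n m⟩
  rw [hx1]
  exact hm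

end Pool.Agent.H9.LS
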