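import Mathlib

/-!
# The bounding and dominating numbers and coherent families: definitions
-/

open Filter Set Cardinal

namespace Pool.Agent.H9.LS

/-- The bounding number `𝔟`. -/
noncomputable def bounding : Cardinal.{0} :=
  sInf {κ | ∃ A : Set (ℕ → ℕ), #A = κ ∧ ∀ g : ℕ → ℕ, ∃ f ∈ A, ¬ ∀ᶠ n in atTop, f n ≤ g n}

/-- The dominating number `𝔡`. -/
noncomputable def dominating : Cardinal.{0} :=
  sInf {κ | ∃ A : Set (ℕ → ℕ), #A = κ ∧ ∀ g : ℕ → ℕ, ∃ f ∈ A, ∀ᶠ n in atTop, g n ≤ f n}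

/-- A family of functions which dominates all functions modulo finite sets. -/
def Dominating {L : Type} (f : L → ℕ → ℕ) : Prop := ∀ g : ℕ → ℕ, ∃ h, ∀ᶠ n in atTop, g n ≤ f h n

/-- There is a coherent family of finite-to-one functions on the countable subsets of `L`. -/
def Coherent (L : Type) : Prop :=
  ∃ g : Set L → L → ℕ, (∀ C : Set L, C.Countable → ∀ k, {x | x ∈ C ∧ g C x ≤ k}.Finite) ∧
    ∀ C D : Set L, C.Countable → D.Countable → {x | x ∈ C ∧ x ∈ D ∧ g C x ≠ g D x}.Finite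

end Pool.Agent.H9.LS
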