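import Pool.Agent.H9.LS.Glue

/-!
# Coherent families: the successor step
-/

open Set Cardinal

namespace Pool.Agent.H9.LS

variable {L : Type}

/-- A well-order of `T` with small initial segments. -/
theorem exists_wo (T : Set L) (κ : Cardinal.{0}) (hT : #T ≤ Order.succ κ) :
    ∃ R : L → L → Prop, (∀ y, #{x | R x y} ≤ κ) ∧ (∀ x y, R x y → x ∈ T) ∧
      (∀ x y z, R x y → R y z → R x z) ∧
      ∀ I ⊆ T, (∀ x y, R x y → y ∈ I → x ∈ I) → I ≠ T → ∃ y ∈ T, y ∉ I ∧ I = {x | R x y} := by
  classical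
  obtain ⟨r, hr, hro⟩ := exists_ord_eq T
  refine ⟨fun x y => ∃ (hx : x ∈ T) (hy : y ∈ T), r ⟨x, hx⟩ ⟨y, hy⟩, ?_, ?_, ?_, ?_⟩
  · intro y
    by_cases hy : y ∈ T
    · have h1 : #{x : T // r x ⟨y, hy⟩} < #T := by
        rw [← Ordinal.card_typein]
        exact card_typein_lt _ hro
      have h2 : #{x : T // r x ⟨y, hy⟩} ≤ κ := Order.lt_succ_iff.1 (h1.trans_le hT)
      refine le_trans ?_ h2
      refine mk_le_of_surjective (f := fun x : {x : T // r x ⟨y, hy⟩} =>
        (⟨x.1.1, x.1.2, hy, x.2⟩ : {x | ∃ (hx : x ∈ T) (hy : y ∈ T), r ⟨x, hx⟩ ⟨y, hy⟩})) ?_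
      rintro ⟨x, hx, hy', h⟩
      exact ⟨⟨⟨x, hx⟩, h⟩, rfl⟩
    · have h1 : {x | ∃ (hx : x ∈ T) (hy : y ∈ T), r ⟨x, hx⟩ ⟨y, hy⟩} = ∅ := by
        ext x
        constructor
        · rintro ⟨-, h2, -⟩
          exact hy h2
        · exact fun h => h.elim
      rw [h1]
      simp
  · rintro x y ⟨hx, -, -⟩
    exact hx
  · rintro x y z ⟨hx, hy, h1⟩ ⟨hy', hz, h2⟩
    exact ⟨hx, hz, _root_.trans h1 h2⟩
  · intro I hI hlow hne
    have h1 : ∃ y : T, (y : L) ∉ I := by
      by_contra hc
      push Not at hc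
      exact hne (Subset.antisymm hI fun y hy => hc ⟨y, hy⟩)
    obtain ⟨y, hy1, hy2⟩ := (IsWellFounded.wf (r := r)).has_min {y : T | (y : L) ∉ I} h1
    refine ⟨y, y.2, hy1, ?_⟩
    ext x
    constructor
    · intro hx
      refine ⟨hI hx, y.2, ?_⟩
      rcases trichotomous_of r ⟨x, hI hx⟩ y with h2 | h2 | h2
      · exact h2
      · exfalso
        apply hy1
        rw [← h2]
        exact hx
      · exact absurd (hlow y x ⟨y.2, hI hx, h2⟩ hx) hy1
    · rintro ⟨hx, hy', h2⟩
      by_contra hc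
      exact hy2 ⟨x, hx⟩ hc h2

theorem ext_succ {κ : Cardinal.{0}} (hκ : ℵ₀ ≤ κ) (hE : Ext κ) : Ext (Order.succ κ) := by
  classical
  intro L T hT A hA hAT g hg
  obtain ⟨R, hR1, hR2, hR3, hR4⟩ := exists_wo T κ hT
  -- the partial extensions
  set Q : Type := {p : Set L × (Set L → L → ℕ) // (p.1 ⊆ T ∧ ∀ x y, R x y → y ∈ p.1 → x ∈ p.1) ∧
    Sys (Cb fun n => p.1 ∪ A n) p.2 ∧ ∀ C ∈ Cb A, p.2 C = g C} with hQ
  set le : Q → Q → Prop := fun p q => p.1.1 ⊆ q.1.1 ∧
    ∀ C ∈ Cb (fun n => p.1.1 ∪ A n), q.1.2 C = p.1.2 C with hle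
  have hmonoI : ∀ I I' : Set L, I ⊆ I' → (Cb fun n => I ∪ A n) ⊆ Cb fun n => I' ∪ A n := by
    rintro I I' hI C ⟨hC, n, hn⟩
    exact ⟨hC, n, hn.trans (union_subset_union_left _ hI)⟩
  have hrefl : ∀ p : Q, le p p := fun p => ⟨Subset.rfl, fun _ _ => rfl⟩
  have htrans : ∀ {p q r : Q}, le p q → le q r → le p r := by
    rintro p q r ⟨h1, h2⟩ ⟨h3, h4⟩
    refine ⟨h1.trans h3, fun C hC => ?_⟩
    rw [h4 C (hmonoI _ _ h1 hC), h2 C hC]
  obtain ⟨m, hm⟩ := exists_maximal_of_chains_bounded (r := le) (by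
    intro c hc
    rcases c.eq_empty_or_nonempty with rfl | hcne
    · refine ⟨⟨(∅, g), ⟨empty_subset _, fun x y _ h => h.elim⟩, ?_, fun _ _ => rfl⟩,
        fun a ha => ha.elim⟩
      refine hg.mono ?_
      rintro C ⟨hC, n, hn⟩
      exact ⟨hC, n, by simpa using hn⟩
    have htot : ∀ p ∈ c, ∀ q ∈ c, le p q ∨ le q p := by
      intro p hp q hq
      by_cases h : p = q
      · rw [h]
        exact Or.inl (hrefl q)
      · exact hc hp hq h
    set I : Set L := {x | ∃ p ∈ c, x ∈ p.1.1} with hI
    have hpI : ∀ p ∈ c, p.1.1 ⊆ I := fun p hp x hx => ⟨p, hp, hx⟩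
    have hIT : I ⊆ T := by
      rintro x ⟨p, -, hx⟩
      exact p.2.1.1 hx
    by_cases hcase : ∃ p ∈ c, p.1.1 = I
    · obtain ⟨p, hp, hpI'⟩ := hcase
      refine ⟨p, fun q hq => ?_⟩
      rcases htot q hq p hp with h1 | h1
      · exact h1
      · have h2 : q.1.1 = p.1.1 := by
          refine Subset.antisymm ?_ h1.1
          rw [hpI']
          exact hpI q hq
        refine ⟨h2.subset, fun C hC => ?_⟩
        refine (h1.2 C ?_).symm
        rw [← h2]
        exact hC
    · push Not at hcase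
      -- the union
      set Ju : Set (Set L) := {C | ∃ p ∈ c, C ∈ Cb fun n => p.1.1 ∪ A n} with hJu
      set gu : Set L → L → ℕ := fun C => if h : ∃ p ∈ c, C ∈ Cb fun n => p.1.1 ∪ A n
        then h.choose.1.2 C else 0 with hgu
      have hgu1 : ∀ p ∈ c, ∀ C ∈ Cb (fun n => p.1.1 ∪ A n), gu C = p.1.2 C := by
        intro p hp C hC
        have h : ∃ p ∈ c, C ∈ Cb fun n => p.1.1 ∪ A n := ⟨p, hp, hC⟩
        have h1 : gu C = h.choose.1.2 C := dif_pos h
        rw [h1]
        rcases htot p hp _ h.choose_spec.1 with h2 | h2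
        · exact h2.2 C hC
        · exact (h2.2 C h.choose_spec.2).symm
      have hdown : ∀ C ∈ Ju, ∀ D ⊆ C, D ∈ Ju := by
        rintro C ⟨p, hp, hC, n, hn⟩ D hD
        exact ⟨p, hp, hC.mono hD, n, hD.trans hn⟩
      have hsu : Sys Ju gu := by
        refine ⟨?_, ?_⟩
        · rintro C ⟨p, hp, hC⟩ k
          rw [hgu1 p hp C hC]
          exact p.2.2.1.1 C hC k
        · rintro C ⟨p, hp, hC⟩ D ⟨q, hq, hD⟩
          rcases htot p hp q hq with h1 | h1
          · have hC' := hmonoI _ _ h1.1 hC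
            rw [hgu1 q hq C hC', hgu1 q hq D hD]
            exact q.2.2.1.2 C hC' D hD
          · have hD' := hmonoI _ _ h1.1 hD
            rw [hgu1 p hp C hC, hgu1 p hp D hD']
            exact p.2.2.1.2 C hC D hD'
      have hg5 : ∀ C ∈ Cb A, C ∈ Ju ∧ gu C = g C := by
        intro C hC
        obtain ⟨p, hp⟩ := hcne
        have h1 : C ∈ Cb fun n => p.1.1 ∪ A n := by
          obtain ⟨hC1, n, hn⟩ := hC
          exact ⟨hC1, n, hn.trans subset_union_right⟩
        exact ⟨⟨p, hp, h1⟩, by rw [hgu1 p hp C h1, p.2.2.2 C hC]⟩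
      -- a coherent family on the countable subsets of `I`
      have hg1 : ∃ g1 : Set L → L → ℕ, Sys {C | C.Countable ∧ C ⊆ I} g1 ∧
          ∀ C ∈ Ju, C ⊆ I → {x | x ∈ C ∧ g1 C x ≠ gu C x}.Finite := by
        by_cases h2 : ∀ C : Set L, C.Countable → C ⊆ I → ∃ p ∈ c, C ⊆ p.1.1
        · refine ⟨gu, hsu.mono ?_, fun C _ _ => ?_⟩
          · rintro C ⟨hC1, hC2⟩
            obtain ⟨p, hp, h3⟩ := h2 C hC1 hC2
            exact ⟨p, hp, hC1, 0, h3.trans subset_union_left⟩
          · simp only [ne_eq, not_true_eq_false, and_false]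
            exact finite_empty
        · push Not at h2
          obtain ⟨C0, hC0, hC0I, hC0p⟩ := h2
          have hne0 : C0.Nonempty := by
            by_contra hc0
            rw [not_nonempty_iff_eq_empty] at hc0
            obtain ⟨p, hp⟩ := hcne
            apply hC0p p hp
            rw [hc0]
            exact empty_subset _
          obtain ⟨u, hu⟩ := hC0.exists_eq_range hne0
          have h3 : ∀ k, ∃ p ∈ c, u k ∈ p.1.1 := fun k => hC0I (by rw [hu]; exact ⟨k, rfl⟩)
          choose p hp1 hp2 using h3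
          have h4 : ∀ q ∈ c, ∃ k, q.1.1 ⊆ (p k).1.1 := by
            intro q hq
            have h5 : ∃ k, u k ∉ q.1.1 := by
              by_contra hcc
              push Not at hcc
              apply hC0p q hq
              rw [hu]
              rintro _ ⟨k, rfl⟩
              exact hcc k
            obtain ⟨k, hk⟩ := h5
            refine ⟨k, ?_⟩
            rcases htot q hq _ (hp1 k) with h6 | h6
            · exact h6.1
            · exact absurd (h6.1 (hp2 k)) hk
          have hsmall : ∀ q ∈ c, #q.1.1 ≤ κ := by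
            intro q hq
            have h5 : q.1.1 ≠ T := by
              intro h6
              apply hcase q hq
              exact Subset.antisymm (hpI q hq) (by rw [h6]; exact hIT)
            obtain ⟨y, -, -, hy⟩ := hR4 q.1.1 q.2.1.1 q.2.1.2 h5
            rw [hy]
            exact hR1 y
          have hIU : I ⊆ ⋃ k, (p k).1.1 := by
            rintro x ⟨q, hq, hx⟩
            obtain ⟨k, hk⟩ := h4 q hq
            exact mem_iUnion.2 ⟨k, hk hx⟩
          have hIκ : #I ≤ κ := by
            refine (mk_le_mk_of_subset hIU).trans ((mk_iUnion_le _).trans ?_)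
            rw [mk_nat]
            refine (mul_le_mul' hκ (ciSup_le' fun k => hsmall _ (hp1 k))).trans ?_
            rw [mul_eq_self hκ]
          -- the increasing sequence
          set A' : ℕ → Set L := fun k => (⋃ j ∈ Finset.range (k + 1), (p j).1.1) ∪ (A k ∩ I) with hA'
          have hA'mono : Monotone A' := by
            intro k l hkl
            refine union_subset_union ?_ (inter_subset_inter_left _ (hA hkl))
            refine biUnion_subset_biUnion_left ?_
            intro j hj
            simp only [Finset.coe_range, mem_Iio] at hj ⊢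
            omega
          have hfinU : ∀ k, ∃ q ∈ c, (⋃ j ∈ Finset.range (k + 1), (p j).1.1) ⊆ q.1.1 := by
            intro k
            induction k with
            | zero =>
              refine ⟨p 0, hp1 0, ?_⟩
              refine iUnion₂_subset fun j hj => ?_
              have : j = 0 := by simpa using hj
              rw [this]
            | succ k ih =>
              obtain ⟨q, hq, hqs⟩ := ih
              have h5 : ∀ r : Q, q.1.1 ⊆ r.1.1 → (p (k + 1)).1.1 ⊆ r.1.1 →
                  (⋃ j ∈ Finset.range (k + 1 + 1), (p j).1.1) ⊆ r.1.1 := by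
                intro r hr1 hr2
                refine iUnion₂_subset fun j hj => ?_
                rcases Nat.lt_succ_iff_lt_or_eq.1 (Finset.mem_range.1 hj) with h6 | h6
                · refine Subset.trans ?_ hr1
                  refine Subset.trans ?_ hqs
                  exact subset_biUnion_of_mem (u := fun j => (p j).1.1)
                    (by simpa using h6)
                · rw [h6]
                  exact hr2
              rcases htot q hq _ (hp1 (k + 1)) with h6 | h6
              · exact ⟨p (k + 1), hp1 _, h5 _ h6.1 Subset.rfl⟩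
              · exact ⟨q, hq, h5 _ Subset.rfl h6.1⟩
          have hA'Ju : Cb A' ⊆ Ju := by
            rintro C ⟨hC1, k, hk⟩
            obtain ⟨q, hq, hqs⟩ := hfinU k
            refine ⟨q, hq, hC1, k, hk.trans ?_⟩
            exact union_subset_union hqs inter_subset_left
          obtain ⟨g1, hg1a, hg1b⟩ := hE L I hIκ A' hA'mono (by
            intro k
            refine union_subset ?_ inter_subset_right
            exact iUnion₂_subset fun j _ => hpI _ (hp1 j)) gu (hsu.mono hA'Ju)
          refine ⟨g1, hg1a, ?_⟩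
          rintro C ⟨q, hq, hC1, n, hn⟩ hCI
          have h5 : C ∈ Cb A' := by
            obtain ⟨k, hk⟩ := h4 q hq
            refine ⟨hC1, max k n, ?_⟩
            intro x hx
            rcases hn hx with h6 | h6
            · left
              refine mem_biUnion (x := k) ?_ (hk h6)
              simp only [Finset.coe_range, mem_Iio]
              exact Nat.lt_succ_of_le (le_max_left _ _)
            · exact Or.inr ⟨hA (le_max_right _ _) h6, hCI hx⟩
          rw [hg1b C h5]
          simp only [ne_eq, not_true_eq_false, and_false]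
          exact finite_empty
      obtain ⟨g1, hg1a, hg1b⟩ := hg1
      obtain ⟨g', hg'1, hg'2⟩ := glue I A g gu g1 Ju hg hsu hg1a hdown hg5 hg1b
      refine ⟨⟨(I, g'), ⟨hIT, ?_⟩, hg'1, ?_⟩, ?_⟩
      · rintro x y hxy ⟨p, hp, hy⟩
        exact ⟨p, hp, p.2.1.2 x y hxy hy⟩
      · intro C hC
        have h1 := hg5 C hC
        rw [← h1.2]
        exact hg'2 C h1.1
      · intro p hp
        refine ⟨hpI p hp, fun C hC => ?_⟩
        rw [← hgu1 p hp C hC]
        exact hg'2 C ⟨p, hp, hC⟩) htrans
  -- the maximal element is everything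
  have hmT : m.1.1 = T := by
    by_contra hne
    obtain ⟨y, hy1, hy2, hy3⟩ := hR4 m.1.1 m.2.1.1 m.2.1.2 hne
    obtain ⟨g', hg'1, hg'2⟩ := add_point m.1.1 y A g m.1.2 hg m.2.2.1 m.2.2.2
    have h1 := hm ⟨(insert y m.1.1, g'), ⟨insert_subset hy1 m.2.1.1, ?_⟩, hg'1, ?_⟩
      ⟨subset_insert _ _, hg'2⟩
    · exact hy2 (h1.1 (mem_insert y m.1.1))
    · intro x z hxz hz
      rcases hz with rfl | hz
      · right
        change x ∈ m.1.1
        rw [hy3]
        exact hxz
      · exact Or.inr (m.2.1.2 x z hxz hz)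
    · intro C hC
      obtain ⟨hC1, n, hn⟩ := hC
      change g' C = g C
      rw [hg'2 C ⟨hC1, n, hn.trans subset_union_right⟩]
      exact m.2.2.2 C ⟨hC1, n, hn⟩
  refine ⟨m.1.2, m.2.2.1.mono ?_, m.2.2.2⟩
  rintro C ⟨hC1, hC2⟩
  refine ⟨hC1, 0, hC2.trans ?_⟩
  rw [hmT]
  exact subset_union_left

/-- Coherent families exist on all sets with fewer than `ℵ_ω` elements. -/
theorem ext_aleph (n : ℕ) : Ext (Cardinal.aleph n) := by
  induction n with
  | zero =>
    rw [Nat.cast_zero, aleph_zero]
    exact ext_aleph0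
  | succ n ih =>
    rw [Nat.cast_succ, ← succ_aleph]
    exact ext_succ (aleph0_le_aleph _) ih

theorem coherent_of_le {L : Type} (n : ℕ) (h : #L ≤ Cardinal.aleph n) : Coherent L := by
  obtain ⟨g, hg, -⟩ := ext_aleph n L univ (by rw [mk_univ]; exact h) (fun _ => ∅)
    (fun _ _ _ => Subset.rfl) (fun _ => empty_subset _) (fun _ _ => 0) (by
      have h1 : ∀ C ∈ Cb (fun _ : ℕ => (∅ : Set L)), C = ∅ := by
        rintro C ⟨-, n, hn⟩
        exact subset_eq_empty hn rfl
      refine ⟨fun C hC k => ?_, fun C hC D _ => ?_⟩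
      · rw [h1 C hC]
        simp
      · rw [h1 C hC]
        simp)
  exact ⟨g, fun C hC k => hg.1 C ⟨hC, subset_univ _⟩ k,
    fun C D hC hD => hg.2 C ⟨hC, subset_univ _⟩ D ⟨hD, subset_univ _⟩⟩

end Pool.Agent.H9.LS
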