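import Pool.Agent.H9.LS.Sel
import Pool.Agent.H9.LS.Step

/-!
# The combinatorial data from a coherent family
-/

open Filter Set Cardinal

namespace Pool.Agent.H9.LS

/-- Countably many functions do not dominate all functions. -/
theorem exists_not_dominated {L : Type} (f : L → ℕ → ℕ) (C : Set L)
    (hC : C.Countable) : ∃ g : ℕ → ℕ, ∀ h ∈ C, ¬ ∀ᶠ n in atTop, g n ≤ f h n := by
  classical
  rcases C.eq_empty_or_nonempty with rfl | hne
  · exact ⟨0, fun h hh => hh.elim⟩
  · obtain ⟨u, hu⟩ := hC.exists_eq_range hne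
    refine ⟨fun n => (Finset.range (n + 1)).sup (fun k => f (u k) n) + 1, ?_⟩
    intro h hh hc
    rw [hu] at hh
    obtain ⟨k, rfl⟩ := hh
    obtain ⟨N, hN⟩ := eventually_atTop.1 hc
    have h1 := hN (max N k) (le_max_left _ _)
    dsimp only at h1
    have h2 : f (u k) (max N k) ≤ (Finset.range (max N k + 1)).sup (fun j => f (u j) (max N k)) :=
      Finset.le_sup (f := fun j => f (u j) (max N k))
        (Finset.mem_range.2 (Nat.lt_succ_of_le (le_max_right _ _)))
    omega

theorem Dominating.not_countable {L : Type} {f : L → ℕ → ℕ} (hf : Dominating f) :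
    ¬ (univ : Set L).Countable := by
  intro hc
  obtain ⟨g, hg⟩ := exists_not_dominated f univ hc
  obtain ⟨h, hh⟩ := hf g
  exact hg h (mem_univ h) hh

theorem Coherent.prod {L : Type} (h : Coherent L) : Coherent (L × ℕ) := by
  classical
  obtain ⟨g, hg1, hg2⟩ := h
  refine ⟨fun C x => max (g (Prod.fst '' C) x.1) x.2, fun C hC k => ?_, fun C D hC hD => ?_⟩
  · refine ((hg1 _ (hC.image Prod.fst) k).prod (finite_le_nat k)).subset ?_
    rintro x ⟨hx1, hx2⟩
    exact ⟨⟨⟨x, hx1, rfl⟩, (le_max_left _ _).trans hx2⟩, (le_max_right _ _).trans hx2⟩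
  · set F : Set L := {x | x ∈ Prod.fst '' C ∧ x ∈ Prod.fst '' D ∧
      g (Prod.fst '' C) x ≠ g (Prod.fst '' D) x} with hF
    have hFf : F.Finite := hg2 _ _ (hC.image Prod.fst) (hD.image Prod.fst)
    obtain ⟨B, hB⟩ := (hFf.image fun x => max (g (Prod.fst '' C) x) (g (Prod.fst '' D) x)).bddAbove
    refine (hFf.prod (finite_le_nat B)).subset ?_
    rintro x ⟨hx1, hx2, hx3⟩
    have h1 : x.1 ∈ F := by
      refine ⟨⟨x, hx1, rfl⟩, ⟨x, hx2, rfl⟩, fun h4 => hx3 ?_⟩
      dsimp only
      rw [h4]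
    refine ⟨h1, ?_⟩
    have h2 : max (g (Prod.fst '' C) x.1) (g (Prod.fst '' D) x.1) ≤ B := hB ⟨x.1, h1, rfl⟩
    by_contra hc
    have h3 : B < x.2 := not_le.1 hc
    apply hx3
    dsimp only
    rw [max_eq_right, max_eq_right]
    · exact (le_max_right _ _).trans (h2.trans h3.le)
    · exact (le_max_left _ _).trans (h2.trans h3.le)

/-- The data from a dominating family and a coherent family. -/
theorem core_of_coherent {L : Type} (f : L → ℕ → ℕ) (hf : Dominating f) (hL : Coherent L) :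
    Nonempty (Core (L × ℕ)) := by
  classical
  obtain ⟨g, hg1, hg2⟩ := hL.prod
  -- the functions `g C`, extended by `0`
  have hgE : ∀ C : Set (L × ℕ), C.Countable →
      {h | (if h ∈ C then g C h else 0) ≠ 0}.Countable ∧
      ∀ D : Set (L × ℕ), D.Countable → {h | h ∈ D ∧ g D h < if h ∈ C then g C h else 0}.Finite := by
    intro C hC
    refine ⟨hC.mono ?_, fun D hD => (hg2 C D hC hD).subset ?_⟩
    · intro h hh
      by_contra hc
      exact hh (if_neg hc)
    · rintro h ⟨h1, h2⟩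
      by_cases h3 : h ∈ C
      · rw [if_pos h3] at h2
        exact ⟨h3, h1, ne_of_gt h2⟩
      · rw [if_neg h3] at h2
        omega
  refine ⟨⟨fun h n => f h.1 n + h.2, {e | {h | e h ≠ 0}.Countable ∧
    ∀ D : Set (L × ℕ), D.Countable → {h | h ∈ D ∧ g D h < e h}.Finite}, ?_, ?_, ?_, ?_, ?_, ?_⟩⟩
  · exact fun e he => he.1
  · rintro e ⟨he1, he2⟩ e' ⟨he1', he2'⟩
    refine ⟨(he1.union he1').mono ?_, fun D hD => ((he2 D hD).union (he2' D hD)).subset ?_⟩
    · intro h hh
      by_contra hc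
      simp only [mem_union, mem_ofPred_eq, not_or, not_not] at hc
      apply hh
      dsimp only
      rw [hc.1, hc.2, max_self]
    · rintro h ⟨h1, h2⟩
      rcases lt_max_iff.1 h2 with h3 | h3
      · exact Or.inl ⟨h1, h3⟩
      · exact Or.inr ⟨h1, h3⟩
  · intro D hD
    refine ⟨fun _ h => if h ∈ D then g D h else 0, fun _ => hgE D hD, fun _ _ _ _ => le_rfl, ?_⟩
    rintro e ⟨-, he2⟩
    obtain ⟨B, hB⟩ := ((he2 D hD).image e).bddAbove
    refine ⟨B, fun h hh => ?_⟩
    dsimp only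
    rw [if_pos hh]
    by_cases h1 : g D h < e h
    · exact (hB ⟨h, ⟨hh, h1⟩, rfl⟩).trans (le_max_right _ _)
    · exact (not_lt.1 h1).trans (le_max_left _ _)
  · intro s hs
    set C : Set (L × ℕ) := range fun x : ℕ × ℕ => s x.1 x.2 with hC
    have hCc : C.Countable := countable_range _
    have hsC : ∀ n m, s n m ∈ C := fun n m => ⟨(n, m), rfl⟩
    refine ⟨fun h => if h ∈ C then g C h else 0, hgE C hCc, fun N => ⟨N, le_rfl, ?_⟩⟩
    by_contra hc
    push Not at hc
    obtain ⟨B, hB⟩ := ((hg1 C hCc N).image fun h => f h.1 N + h.2).bddAbove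
    have h1 := hs N (B + 1)
    have h2 := hc (B + 1)
    rw [if_pos (hsC N (B + 1))] at h2
    have h3 : f (s N (B + 1)).1 N + (s N (B + 1)).2 ≤ B := hB ⟨_, ⟨hsC N (B + 1), h2⟩, rfl⟩
    omega
  · intro k
    obtain ⟨h, hh⟩ := hf k
    exact ⟨(h, 0), hh⟩
  · intro n m hc
    apply hf.not_countable
    refine (hc.image Prod.fst).mono ?_
    intro h _
    exact ⟨(h, m), Nat.le_add_left _ _, rfl⟩

end Pool.Agent.H9.LS
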