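import Pool.Agent.H9.LS.FromCoh
import Pool.Agent.H58.SEL.Small

/-!
# The combinatorial data from a scale
-/

open Filter Set Cardinal Pool.Agent.H58.SEL

namespace Pool.Agent.H9.LS

/-- A function all of whose fibres are uncountable. -/
theorem exists_fibres {I : Type} (hI : ¬ (univ : Set I).Countable) :
    ∃ J : I → ℕ, ∀ k, ¬ {x | J x = k}.Countable := by
  have : Infinite I := by
    by_contra hc
    rw [not_infinite_iff_finite] at hc
    exact hI (finite_univ.countable)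
  have h1 : #(I × ℕ) = #I := by
    rw [mk_prod, lift_id, lift_id, mk_nat]
    exact mul_eq_left (aleph0_le_mk I) (aleph0_le_mk I) aleph0_ne_zero
  obtain ⟨e⟩ := Cardinal.eq.1 h1.symm
  refine ⟨fun x => (e x).2, fun k hk => ?_⟩
  apply hI
  refine (hk.image fun x => (e x).1).mono ?_
  intro x _
  refine ⟨e.symm (x, k), ?_, ?_⟩
  · change (e (e.symm (x, k))).2 = k
    rw [e.apply_symm_apply]
  · change (e (e.symm (x, k))).1 = x
    rw [e.apply_symm_apply]

section

variable {I : Type} [LinearOrder I]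

/-- The place from which `f ξ ≤ f η` holds, for `ξ < η`. -/
noncomputable def lam (f : I → ℕ → ℕ) (η ξ : I) : ℕ := by
  classical
  exact if ξ < η then sInf {N | ∀ k ≥ N, f ξ k ≤ f η k} else 0

theorem lam_spec {f : I → ℕ → ℕ} (hf : ∀ ξ η, ξ < η → ∀ᶠ n in atTop, f ξ n ≤ f η n) {η ξ : I}
    (h : ξ < η) : ∀ k ≥ lam f η ξ, f ξ k ≤ f η k := by
  classical
  have h1 : {N | ∀ k ≥ N, f ξ k ≤ f η k}.Nonempty := by
    obtain ⟨N, hN⟩ := eventually_atTop.1 (hf ξ η h)
    exact ⟨N, hN⟩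
  have h2 := Nat.sInf_mem h1
  unfold lam
  rw [if_pos h]
  exact h2

theorem lam_le {f : I → ℕ → ℕ} {η ξ : I} {N : ℕ} (h : ∀ k ≥ N, f ξ k ≤ f η k) :
    lam f η ξ ≤ N := by
  classical
  unfold lam
  split_ifs
  · exact Nat.sInf_le h
  · exact Nat.zero_le _

theorem lam_not_lt {f : I → ℕ → ℕ} {η ξ : I} (h : ¬ ξ < η) : lam f η ξ = 0 := by
  classical
  unfold lam
  rw [if_neg h]

theorem lam_trans {f : I → ℕ → ℕ} (hf : ∀ ξ η, ξ < η → ∀ᶠ n in atTop, f ξ n ≤ f η n)
    {D : Set I} {η δ : I} (h1 : D ∩ Iio δ = D ∩ Iio η) (h2 : δ ≤ η) :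
    ∃ c, ∀ ξ ∈ D, lam f η ξ ≤ max (lam f δ ξ) c := by
  refine ⟨lam f η δ, fun ξ hξ => ?_⟩
  by_cases h3 : ξ < η
  · have h4 : ξ < δ := by
      have : ξ ∈ D ∩ Iio δ := by
        rw [h1]
        exact ⟨hξ, h3⟩
      exact this.2
    refine lam_le fun k hk => ?_
    refine (lam_spec hf h4 k ((le_max_left _ _).trans hk)).trans ?_
    rcases h2.eq_or_lt with h5 | h5
    · rw [h5]
    · exact lam_spec hf h5 k ((le_max_right _ _).trans hk)
  · rw [lam_not_lt h3]
    exact Nat.zero_le _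

/-- The initial segments of a countable set. -/
theorem countable_segments [WellFoundedLT I] {D : Set I} (hD : D.Countable) :
    {S : Set I | ∃ δ, S = D ∩ Iio δ}.Countable := by
  refine ((hD.image fun d => D ∩ Iio d).insert D).mono ?_
  rintro S ⟨δ, rfl⟩
  by_cases h : ∃ x ∈ D, δ ≤ x
  · right
    obtain ⟨d, ⟨hd1, hd2⟩, hd3⟩ := (wellFounded_lt (α := I)).has_min {x | x ∈ D ∧ δ ≤ x}
      (by obtain ⟨x, hx1, hx2⟩ := h; exact ⟨x, hx1, hx2⟩)
    refine ⟨d, hd1, ?_⟩
    ext x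
    constructor
    · rintro ⟨hx1, hx2⟩
      refine ⟨hx1, ?_⟩
      by_contra hc
      exact hd3 x ⟨hx1, not_lt.1 hc⟩ hx2
    · rintro ⟨hx1, hx2⟩
      exact ⟨hx1, lt_of_lt_of_le hx2 hd2⟩
  · left
    push Not at h
    exact inter_eq_left.2 fun x hx => h x hx

/-- The data from a scale. -/
theorem core_of_scale [WellFoundedLT I] (h : I → ℕ → ℕ)
    (hmono : ∀ ξ η, ξ < η → ∀ᶠ n in atTop, h ξ n ≤ h η n) (hdom : Dominating h) :
    Nonempty (Core I) := by
  classical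
  obtain ⟨J, hJ⟩ := exists_fibres hdom.not_countable
  set f : I → ℕ → ℕ := fun ξ n => h ξ n + if n ≤ J ξ then J ξ else 0 with hf
  have hhf : ∀ ξ n, h ξ n ≤ f ξ n := fun ξ n => Nat.le_add_right _ _
  have hfm : ∀ ξ η, ξ < η → ∀ᶠ n in atTop, f ξ n ≤ f η n := by
    intro ξ η hξη
    filter_upwards [hmono ξ η hξη, eventually_gt_atTop (J ξ)] with n h1 h2
    have h3 : f ξ n = h ξ n := by
      rw [hf]
      dsimp only
      rw [if_neg (not_le.2 h2), add_zero]
    rw [h3]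
    exact h1.trans (hhf η n)
  have hfd : Dominating f := by
    intro g
    obtain ⟨ξ, hξ⟩ := hdom g
    exact ⟨ξ, hξ.mono fun n hn => hn.trans (hhf ξ n)⟩
  refine ⟨⟨f, {e | {ξ | e ξ ≠ 0}.Countable ∧
    ∃ F : Finset I, ∀ ξ, e ξ ≤ F.sup fun η => lam f η ξ}, ?_, ?_, ?_, ?_, hfd, ?_⟩⟩
  · exact fun e he => he.1
  · rintro e ⟨he1, F, he2⟩ e' ⟨he1', F', he2'⟩
    refine ⟨(he1.union he1').mono ?_, F ∪ F', fun ξ => ?_⟩
    · intro ξ hξ
      by_contra hc
      simp only [mem_union, mem_ofPred_eq, not_or, not_not] at hc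
      apply hξ
      dsimp only
      rw [hc.1, hc.2, max_self]
    · rw [Finset.sup_union]
      exact max_le_max (he2 ξ) (he2' ξ)
  · intro D hD
    obtain ⟨ξ0, -⟩ := hdom 0
    set Δ : Set I := {δ | ∀ η, D ∩ Iio η = D ∩ Iio δ → δ ≤ η} with hΔ
    have hΔ1 : ∀ η, ∃ δ ∈ Δ, D ∩ Iio δ = D ∩ Iio η ∧ δ ≤ η := by
      intro η
      obtain ⟨δ, hδ1, hδ2⟩ := (wellFounded_lt (α := I)).has_min {δ | D ∩ Iio δ = D ∩ Iio η} ⟨η, rfl⟩
      have hδ1' : D ∩ Iio δ = D ∩ Iio η := hδ1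
      refine ⟨δ, ?_, hδ1', not_lt.1 (hδ2 η rfl)⟩
      intro η' hη'
      exact not_lt.1 (hδ2 η' (hη'.trans hδ1'))
    have hΔc : Δ.Countable := by
      refine countable_of_injective_of_countable_image (f := fun δ => D ∩ Iio δ) ?_
        ((countable_segments hD).mono ?_)
      · intro δ hδ δ' hδ' hh
        exact le_antisymm (hδ δ' hh.symm) (hδ' δ hh)
      · rintro _ ⟨δ, -, rfl⟩
        exact ⟨δ, rfl⟩
    have hΔne : Δ.Nonempty := by
      obtain ⟨δ, hδ, -⟩ := hΔ1 ξ0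
      exact ⟨δ, hδ⟩
    obtain ⟨u, hu⟩ := hΔc.exists_eq_range hΔne
    refine ⟨fun j ξ => if ξ ∈ D then (Finset.range (j + 1)).sup (fun i => lam f (u i) ξ) else 0,
      fun j => ⟨hD.mono ?_, (Finset.range (j + 1)).image u, fun ξ => ?_⟩, ?_, ?_⟩
    · intro ξ hξ
      by_contra hc
      exact hξ (if_neg hc)
    · rw [Finset.sup_image]
      dsimp only
      split_ifs
      · exact le_rfl
      · exact Nat.zero_le _
    · intro i j hij ξ
      dsimp only
      split_ifs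
      · exact Finset.sup_mono (Finset.range_mono (Nat.succ_le_succ hij))
      · exact le_rfl
    · rintro e ⟨-, F, he⟩
      have h1 : ∀ η, ∃ i c, ∀ ξ ∈ D, lam f η ξ ≤ max (lam f (u i) ξ) c := by
        intro η
        obtain ⟨δ, hδ1, hδ2, hδ3⟩ := hΔ1 η
        rw [hu] at hδ1
        obtain ⟨i, rfl⟩ := hδ1
        obtain ⟨c, hc⟩ := lam_trans hfm hδ2 hδ3
        exact ⟨i, c, hc⟩
      choose i c hic using h1
      refine ⟨F.sup fun η => max (i η) (c η), fun ξ hξ => (he ξ).trans ?_⟩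
      refine Finset.sup_le fun η hη => (hic η ξ hξ).trans ?_
      have h2 : max (i η) (c η) ≤ F.sup fun η => max (i η) (c η) :=
        Finset.le_sup (f := fun η => max (i η) (c η)) hη
      refine max_le_max ?_ ((le_max_right _ _).trans h2)
      dsimp only
      rw [if_pos hξ]
      exact Finset.le_sup (f := fun i => lam f (u i) ξ)
        (Finset.mem_range.2 (Nat.lt_succ_of_le ((le_max_left _ _).trans h2)))
  · intro s hs
    have h1 : ∃ η, ∀ n m, s n m < η := by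
      by_contra hc
      push Not at hc
      obtain ⟨g, hg⟩ := exists_not_dominated f (range fun x : ℕ × ℕ => s x.1 x.2)
        (countable_range _)
      obtain ⟨η, hη⟩ := hfd g
      obtain ⟨n, m, hnm⟩ := hc η
      apply hg (s n m) ⟨(n, m), rfl⟩
      rcases hnm.eq_or_lt with h2 | h2
      · rw [← h2]
        exact hη
      · filter_upwards [hη, hfm _ _ h2] with k h3 h4
        exact h3.trans h4
    obtain ⟨η, hη⟩ := h1
    set C : Set I := range fun x : ℕ × ℕ => s x.1 x.2 with hC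
    have hsC : ∀ n m, s n m ∈ C := fun n m => ⟨(n, m), rfl⟩
    have hCc : C.Countable := countable_range _
    refine ⟨fun ξ => if ξ ∈ C then lam f η ξ else 0, ⟨hCc.mono ?_, {η}, ?_⟩,
      fun N => ⟨N, le_rfl, f η N + 1, ?_⟩⟩
    · intro ξ hξ
      by_contra hc
      exact hξ (if_neg hc)
    · intro ξ
      rw [Finset.sup_singleton]
      dsimp only
      split_ifs
      · exact le_rfl
      · exact Nat.zero_le _
    · dsimp only
      rw [if_pos (hsC _ _)]
      by_contra hc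
      have h2 := lam_spec hfm (hη N (f η N + 1)) N (not_lt.1 hc)
      have h3 := hs N (f η N + 1)
      omega
  · intro n m hc
    apply hJ (max n m)
    refine hc.mono ?_
    intro ξ hξ
    have hξ' : J ξ = max n m := hξ
    change m ≤ h ξ n + if n ≤ J ξ then J ξ else 0
    rw [if_pos (by rw [hξ']; exact le_max_left _ _), hξ']
    exact (le_max_right n m).trans (Nat.le_add_left _ _)

end

theorem exists_dominating : ∃ A : Set (ℕ → ℕ), #A = dominating ∧
    ∀ g : ℕ → ℕ, ∃ f ∈ A, ∀ᶠ n in atTop, g n ≤ f n := by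
  have h : {κ : Cardinal.{0} | ∃ A : Set (ℕ → ℕ), #A = κ ∧
      ∀ g : ℕ → ℕ, ∃ f ∈ A, ∀ᶠ n in atTop, g n ≤ f n}.Nonempty :=
    ⟨_, univ, rfl, fun g => ⟨g, mem_univ g, Eventually.of_forall fun _ => le_rfl⟩⟩
  exact csInf_mem h

theorem dominating_subtype {A : Set (ℕ → ℕ)} (hA : ∀ g : ℕ → ℕ, ∃ f ∈ A, ∀ᶠ n in atTop, g n ≤ f n) :
    Dominating (fun a : A => (a : ℕ → ℕ)) := by
  intro g
  obtain ⟨f, hf1, hf2⟩ := hA g
  exact ⟨⟨f, hf1⟩, hf2⟩

/-- Families with fewer than `𝔟` members are bounded. -/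
theorem exists_bound_of_lt (C : Set (ℕ → ℕ)) (hC : #C < bounding) :
    ∃ g : ℕ → ℕ, ∀ f ∈ C, ∀ᶠ n in atTop, f n ≤ g n := by
  by_contra hc
  have h1 : bounding ≤ #C := csInf_le' ⟨C, rfl, fun g => by
    by_contra hcc
    exact hc ⟨g, fun f hf => by
      by_contra h2
      exact hcc ⟨f, hf, h2⟩⟩⟩
  exact absurd hC (not_lt.2 h1)

theorem aleph0_lt_dominating : ℵ₀ < dominating := by
  obtain ⟨A, hA1, hA2⟩ := exists_dominating
  rw [← hA1]
  by_contra hc
  have h1 : A.Countable := le_aleph0_iff_set_countable.1 (not_lt.1 hc)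
  have := h1.to_subtype
  exact (dominating_subtype hA2).not_countable countable_univ

/-- The data if `𝔟 = 𝔡`. -/
theorem core_of_eq (hbd : bounding = dominating) : ∃ I : Type, Nonempty (Core I) := by
  classical
  obtain ⟨A, hA1, hA2⟩ := exists_dominating
  let I : Type := dominating.ord.ToType
  have hIA : #I = #A := by
    rw [hA1]
    exact mk_ord_toType _
  obtain ⟨ι⟩ := Cardinal.eq.1 hIA
  have hex : ∀ C : Set (ℕ → ℕ), ∃ g : ℕ → ℕ, #C < bounding → ∀ f ∈ C, ∀ᶠ n in atTop, f n ≤ g n := by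
    intro C
    by_cases hC : #C < bounding
    · obtain ⟨g, hg⟩ := exists_bound_of_lt C hC
      exact ⟨g, fun _ => hg⟩
    · exact ⟨0, fun h => absurd h hC⟩
  choose bd hbdd using hex
  set h0 : I → ℕ → ℕ := fun i => (ι i : ℕ → ℕ) with hh0
  have hsm : ∀ i : I, #(insert (h0 i) (range fun j : Iio i => scale bd h0 j.1) : Set (ℕ → ℕ)) <
      bounding := by
    intro i
    have h1 : #(Iio i) < dominating := mk_Iio_toType_ord_lt i
    refine lt_of_le_of_lt (mk_insert_le) ?_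
    rw [hbd]
    refine add_lt_of_lt aleph0_lt_dominating.le (lt_of_le_of_lt mk_range_le h1) ?_
    exact one_lt_aleph0.trans aleph0_lt_dominating
  refine ⟨I, core_of_scale (scale bd h0) ?_ ?_⟩
  · intro ξ η hξη
    rw [scale_eq bd h0 η]
    exact hbdd _ (hsm η) _ (mem_insert_of_mem _ ⟨⟨ξ, hξη⟩, rfl⟩)
  · intro g
    obtain ⟨f, hf1, hf2⟩ := hA2 g
    refine ⟨ι.symm ⟨f, hf1⟩, ?_⟩
    have h1 := hbdd _ (hsm (ι.symm ⟨f, hf1⟩)) _ (mem_insert _ _)
    rw [← scale_eq bd h0] at h1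
    have h2 : h0 (ι.symm ⟨f, hf1⟩) = f := by
      rw [hh0]
      dsimp only
      rw [ι.apply_symm_apply]
    rw [h2] at h1
    filter_upwards [hf2, h1] with n h3 h4
    exact h3.trans h4

end Pool.Agent.H9.LS
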