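import Pool.Agent.H9.LS.Coh

/-!
# Coherent families: gluing
-/

open Set Cardinal

namespace Pool.Agent.H9.LS

variable {L : Type}

/-- Gluing a coherent family on the countable subsets of `I` with coherent families on `Ju` and on
the countable subsets of the sets `A n`. -/
theorem glue (I : Set L) (A : ℕ → Set L) (g gu g1 : Set L → L → ℕ) (Ju : Set (Set L))
    (h1 : Sys (Cb A) g) (h2 : Sys Ju gu) (h3 : Sys {C | C.Countable ∧ C ⊆ I} g1)
    (h4 : ∀ C ∈ Ju, ∀ D ⊆ C, D ∈ Ju) (h5 : ∀ C ∈ Cb A, C ∈ Ju ∧ gu C = g C)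
    (h6 : ∀ C ∈ Ju, C ⊆ I → {x | x ∈ C ∧ g1 C x ≠ gu C x}.Finite) :
    ∃ g' : Set L → L → ℕ, Sys (Cb fun n => I ∪ A n) g' ∧ ∀ C ∈ Ju, g' C = gu C := by
  classical
  set gh : Set L → L → ℕ := fun C x => if x ∈ I then g1 (C ∩ I) x else g (C \ I) x with hgh
  have hin : ∀ (C : Set L) (x : L), x ∈ I → gh C x = g1 (C ∩ I) x := fun C x hx => if_pos hx
  have hout : ∀ (C : Set L) (x : L), x ∉ I → gh C x = g (C \ I) x := fun C x hx => if_neg hx
  have hI : ∀ C ∈ Cb (fun n => I ∪ A n), C ∩ I ∈ {C : Set L | C.Countable ∧ C ⊆ I} :=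
    fun C hC => ⟨hC.1.mono inter_subset_left, inter_subset_right⟩
  have hA : ∀ C ∈ Cb (fun n => I ∪ A n), C \ I ∈ Cb A := by
    rintro C ⟨hC, n, hn⟩
    refine ⟨hC.mono sdiff_subset, n, ?_⟩
    rintro x ⟨hx1, hx2⟩
    exact (hn hx1).resolve_left hx2
  have hsys : Sys (Cb fun n => I ∪ A n) gh := by
    refine ⟨fun C hC k => ?_, fun C hC D hD => ?_⟩
    · refine ((h3.1 _ (hI C hC) k).union (h1.1 _ (hA C hC) k)).subset ?_
      rintro x ⟨hx1, hx2⟩
      by_cases hx : x ∈ I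
      · exact Or.inl ⟨⟨hx1, hx⟩, by rw [← hin C x hx]; exact hx2⟩
      · exact Or.inr ⟨⟨hx1, hx⟩, by rw [← hout C x hx]; exact hx2⟩
    · refine ((h3.2 _ (hI C hC) _ (hI D hD)).union (h1.2 _ (hA C hC) _ (hA D hD))).subset ?_
      rintro x ⟨hx1, hx2, hx3⟩
      by_cases hx : x ∈ I
      · left
        rw [hin C x hx, hin D x hx] at hx3
        exact ⟨⟨hx1, hx⟩, ⟨hx2, hx⟩, hx3⟩
      · right
        rw [hout C x hx, hout D x hx] at hx3
        exact ⟨⟨hx1, hx⟩, ⟨hx2, hx⟩, hx3⟩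
  refine ⟨fun C => if C ∈ Ju then gu C else gh C, hsys.congr ?_, fun C hC => if_pos hC⟩
  intro C hC
  by_cases hCJ : C ∈ Ju
  · have ha : C ∩ I ∈ Ju := h4 C hCJ _ inter_subset_left
    have hb : C \ I ∈ Ju := h4 C hCJ _ sdiff_subset
    refine (((h2.2 C hCJ _ ha).union (h6 _ ha inter_subset_right)).union
      (h2.2 C hCJ _ hb)).subset ?_
    rintro x ⟨hx1, hx2⟩
    rw [if_pos hCJ] at hx2
    by_cases hx : x ∈ I
    · left
      by_cases hx3 : gu C x = gu (C ∩ I) x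
      · right
        refine ⟨⟨hx1, hx⟩, ?_⟩
        rw [← hx3, ← hin C x hx]
        exact fun h => hx2 h.symm
      · exact Or.inl ⟨hx1, ⟨hx1, hx⟩, hx3⟩
    · right
      refine ⟨hx1, ⟨hx1, hx⟩, ?_⟩
      rw [(h5 _ (hA C hC)).2, ← hout C x hx]
      exact hx2
  · simp only [hCJ, if_false, ne_eq, not_true_eq_false, and_false]
    exact finite_empty

/-- Adding one point. -/
theorem add_point (I : Set L) (y : L) (A : ℕ → Set L) (g gi : Set L → L → ℕ)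
    (h1 : Sys (Cb A) g) (h2 : Sys (Cb fun n => I ∪ A n) gi) (h3 : ∀ C ∈ Cb A, gi C = g C) :
    ∃ g' : Set L → L → ℕ, Sys (Cb fun n => (insert y I) ∪ A n) g' ∧
      ∀ C ∈ Cb fun n => I ∪ A n, g' C = gi C := by
  classical
  have hsub : ∀ C ∈ Cb A, C ∈ Cb fun n => I ∪ A n := by
    rintro C ⟨hC, n, hn⟩
    exact ⟨hC, n, hn.trans subset_union_right⟩
  have hCI : ∀ C : Set L, C.Countable → C ⊆ insert y I → C \ {y} ∈ Cb fun n => I ∪ A n := by
    intro C hC1 hC2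
    refine ⟨hC1.mono sdiff_subset, 0, ?_⟩
    rintro x ⟨hx1, hx2⟩
    exact Or.inl ((hC2 hx1).resolve_left hx2)
  refine glue (insert y I) A g gi (fun C x => if x = y then 0 else gi (C \ {y}) x)
    (Cb fun n => I ∪ A n) h1 h2 ?_ ?_ ?_ ?_
  · refine ⟨fun C hC k => ?_, fun C hC D hD => ?_⟩
    · refine ((finite_singleton y).union (h2.1 _ (hCI C hC.1 hC.2) k)).subset ?_
      rintro x ⟨hx1, hx2⟩
      dsimp only at hx2
      by_cases hx : x = y
      · exact Or.inl hx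
      · rw [if_neg hx] at hx2
        exact Or.inr ⟨⟨hx1, hx⟩, hx2⟩
    · refine (h2.2 _ (hCI C hC.1 hC.2) _ (hCI D hD.1 hD.2)).subset ?_
      rintro x ⟨hx1, hx2, hx3⟩
      dsimp only at hx3
      by_cases hx : x = y
      · rw [if_pos hx, if_pos hx] at hx3
        exact (hx3 rfl).elim
      · rw [if_neg hx, if_neg hx] at hx3
        exact ⟨⟨hx1, hx⟩, ⟨hx2, hx⟩, hx3⟩
  · rintro C ⟨hC, n, hn⟩ D hD
    exact ⟨hC.mono hD, n, hD.trans hn⟩
  · intro C hC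
    exact ⟨hsub C hC, h3 C hC⟩
  · intro C hC hCI'
    have ha : C \ {y} ∈ Cb fun n => I ∪ A n := hCI C hC.1 hCI'
    refine ((finite_singleton y).union (h2.2 _ ha _ hC)).subset ?_
    rintro x ⟨hx1, hx2⟩
    by_cases hx : x = y
    · exact Or.inl hx
    · rw [if_neg hx] at hx2
      exact Or.inr ⟨⟨hx1, hx⟩, hx1, hx2⟩

end Pool.Agent.H9.LS
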