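import Pool.Agent.H9.LS.PSys

/-!
# The gluing lemma below the first singular cardinal above `𝔟`, and the combinatorial data
-/

open Filter Set Cardinal Pool.Agent.H58.SEL

namespace Pool.Agent.H9.LS

variable {L : Type}

theorem mem_part_top {J : Type} [LinearOrder J] (S : Set L) (r : L → WithTop J)
    (h : ∀ x ∈ S, r x < ⊤) : Part S r ⊤ = S := by
  ext x
  exact ⟨fun hx => hx.1, fun hx => ⟨hx, h x hx⟩⟩

/-- The inductive step. -/
theorem glue_step (f : L → ℕ → ℕ) (κ : Cardinal.{0}) (hκ : bounding ≤ κ.ord.cof)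
    (ih : ∀ μ < κ, GlueP f μ) : GlueP f κ := by
  classical
  intro S hS C hC hCs
  let I : Type := κ.ord.ToType
  have hI : #I = κ := mk_ord_toType κ
  rw [← hI] at hS
  obtain ⟨ι⟩ := (Cardinal.le_def S I).1 hS
  set r : L → WithTop I := fun x => if h : x ∈ S then ((ι ⟨x, h⟩ : I) : WithTop I) else ⊤ with hr
  have hr1 : ∀ x (h : x ∈ S), r x = ((ι ⟨x, h⟩ : I) : WithTop I) := fun x h => dif_pos h
  have htop : Part S r ⊤ = S := mem_part_top S r fun x hx => by
    rw [hr1 x hx]
    exact WithTop.coe_lt_top _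
  have hbdd : ∀ K : Set I, #K < bounding → ∃ i, ∀ k ∈ K, k < i := by
    intro K hK
    by_contra hc
    push Not at hc
    have h1 : IsCofinal K := fun i => by
      obtain ⟨k, hk1, hk2⟩ := hc i
      exact ⟨k, hk1, hk2⟩
    have h2 := Order.cof_le h1
    rw [Ordinal.cof_toType] at h2
    exact absurd (hκ.trans h2) (not_le.2 hK)
  have hJ : ∀ j : WithTop I, (∃ A : Set (WithTop I), #A < bounding ∧ (∀ a ∈ A, a < j) ∧
        (∀ i < j, ∃ a ∈ A, i ≤ a) ∧ GlueP f #(Part S r j)) ∨
      ∀ T ⊆ Part S r j, #T < bounding → ∃ i < j, T ⊆ Part S r i := by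
    intro j
    induction j using WithTop.recTopCoe with
    | top =>
      right
      intro T hT hTc
      rw [htop] at hT
      obtain ⟨i, hi⟩ := hbdd {i | ∃ (x : T), ι ⟨x.1, hT x.2⟩ = i} (lt_of_le_of_lt
        (mk_le_of_surjective (f := fun x : T => (⟨ι ⟨x.1, hT x.2⟩, x, rfl⟩ :
          {i | ∃ (x : T), ι ⟨x.1, hT x.2⟩ = i})) (by
          rintro ⟨i, x, rfl⟩
          exact ⟨x, rfl⟩)) hTc)
      refine ⟨(i : WithTop I), WithTop.coe_lt_top _, fun x hx => ⟨hT hx, ?_⟩⟩
      rw [hr1 x (hT hx)]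
      exact WithTop.coe_lt_coe.2 (hi _ ⟨⟨x, hx⟩, rfl⟩)
    | coe j =>
      by_cases hA : ∃ A : Set (WithTop I), #A < bounding ∧ (∀ a ∈ A, a < (j : WithTop I)) ∧
        (∀ i < (j : WithTop I), ∃ a ∈ A, i ≤ a)
      · left
        obtain ⟨A, hA1, hA2, hA3⟩ := hA
        refine ⟨A, hA1, hA2, hA3, ih _ ?_⟩
        have h1 : #(Iio j) < κ := mk_Iio_toType_ord_lt j
        refine lt_of_le_of_lt ?_ h1
        refine mk_le_of_injective (f := fun x : Part S r (j : WithTop I) =>
          (⟨ι ⟨x.1, x.2.1⟩, ?_⟩ : Iio j)) ?_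
        · have h2 := x.2.2
          rw [hr1 _ x.2.1] at h2
          exact WithTop.coe_lt_coe.1 h2
        · rintro ⟨x, hx⟩ ⟨y, hy⟩ hxy
          have h3 := congrArg Subtype.val hxy
          dsimp only at h3
          have h4 := ι.injective h3
          exact Subtype.ext (congrArg (fun z : S => z.1) h4)
      · right
        intro T hT hTc
        by_contra hc
        push Not at hc
        apply hA
        refine ⟨r '' T, lt_of_le_of_lt mk_image_le hTc, ?_, ?_⟩
        · rintro _ ⟨x, hx, rfl⟩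
          exact (hT hx).2
        · intro i hi
          obtain ⟨x, hx, hxi⟩ := not_subset.1 (hc i hi)
          refine ⟨r x, mem_image_of_mem _ hx, ?_⟩
          by_contra hcc
          exact hxi ⟨(hT hx).1, not_le.1 hcc⟩
  obtain ⟨h1, -, h3⟩ := fam_spec f S r C hC hCs hJ ⊤
  rw [htop] at h1
  exact ⟨_, h1, h3⟩

theorem exists_unbounded : ∃ A : Set (ℕ → ℕ), #A = bounding ∧
    ∀ g : ℕ → ℕ, ∃ f ∈ A, ¬ ∀ᶠ n in atTop, f n ≤ g n := by
  have h : {κ : Cardinal.{0} | ∃ A : Set (ℕ → ℕ), #A = κ ∧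
      ∀ g : ℕ → ℕ, ∃ f ∈ A, ¬ ∀ᶠ n in atTop, f n ≤ g n}.Nonempty := by
    refine ⟨_, univ, rfl, fun g => ⟨fun n => g n + 1, mem_univ _, fun hc => ?_⟩⟩
    obtain ⟨n, hn⟩ := hc.exists
    dsimp only at hn
    omega
  exact csInf_mem h

/-- The bounding number is regular. -/
theorem bounding_le_cof : bounding ≤ bounding.ord.cof := by
  classical
  by_contra hc
  have hc := not_le.1 hc
  obtain ⟨A, hA1, hA2⟩ := exists_unbounded
  let I : Type := bounding.ord.ToType
  have hI : #I = #A := by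
    rw [hA1]
    exact mk_ord_toType _
  obtain ⟨e⟩ := Cardinal.eq.1 hI
  obtain ⟨K, hK1, hK2⟩ := Order.exists_cof_eq I
  rw [Ordinal.cof_toType] at hK2
  have h1 : ∀ k : I, ∃ g : ℕ → ℕ, ∀ i ≤ k, ∀ᶠ n in atTop, (e i).1 n ≤ g n := by
    intro k
    obtain ⟨g, hg⟩ := exists_bound_of_lt ((fun i => (e i).1) '' Iic k) (by
      refine lt_of_le_of_lt mk_image_le ?_
      rw [← Iio_insert]
      refine lt_of_le_of_lt mk_insert_le ?_
      exact add_lt_of_lt aleph0_lt_bounding.le (mk_Iio_toType_ord_lt k)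
        (one_lt_aleph0.trans aleph0_lt_bounding))
    exact ⟨g, fun i hi => hg _ (mem_image_of_mem _ hi)⟩
  choose g hg using h1
  obtain ⟨u, hu⟩ := exists_bound_of_lt (g '' K) (by
    refine lt_of_le_of_lt mk_image_le ?_
    rw [hK2]
    exact hc)
  obtain ⟨f, hf1, hf2⟩ := hA2 u
  obtain ⟨k, hk1, hk2⟩ := hK1 (e.symm ⟨f, hf1⟩)
  apply hf2
  have h2 := hg k _ hk2
  rw [e.apply_symm_apply] at h2
  filter_upwards [h2, hu _ (mem_image_of_mem g hk1)] with n h3 h4
  exact h3.trans h4

theorem glue_succ (f : L → ℕ → ℕ) (n : ℕ) : GlueP f (Order.succ^[n] bounding) := by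
  have hb : ∀ n : ℕ, bounding ≤ Order.succ^[n] bounding := by
    intro n
    induction n with
    | zero => exact le_rfl
    | succ n ih =>
      rw [Function.iterate_succ_apply']
      exact ih.trans (Order.le_succ _)
  induction n with
  | zero => exact glue_step f bounding bounding_le_cof fun μ hμ => glue_small f hμ
  | succ n ih =>
    rw [Function.iterate_succ_apply']
    refine glue_step f _ ?_ ?_
    · rw [(isRegular_succ (aleph0_lt_bounding.le.trans (hb n))).cof_ord]
      exact (hb n).trans (Order.le_succ _)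
    · intro μ hμ S hS
      exact ih S (hS.trans (Order.lt_succ_iff.1 hμ))

open Classical in
/-- The place from which `f h ≤ u` holds, for `h ∈ N`, where `p = (N, u)`. -/
noncomputable def wt (f : L → ℕ → ℕ) (p : Pair L) (h : L) : ℕ :=
  if h ∈ p.1 then sInf {k | ∀ n ≥ k, f h n ≤ p.2 n} else 0

theorem wt_spec {f : L → ℕ → ℕ} {p : Pair L} {h : L} (hb : EvLe (f h) p.2) (hh : h ∈ p.1) :
    ∀ n ≥ wt f p h, f h n ≤ p.2 n := by
  have h1 : {k | ∀ n ≥ k, f h n ≤ p.2 n}.Nonempty := by
    obtain ⟨N, hN⟩ := eventually_atTop.1 hb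
    exact ⟨N, hN⟩
  unfold wt
  rw [if_pos hh]
  exact Nat.sInf_mem h1

theorem wt_below {f : L → ℕ → ℕ} {p q : Pair L} {D : Set L} (hq : ∀ h ∈ q.1, EvLe (f h) q.2)
    (h1 : p.1 ∩ D ⊆ q.1) (h2 : EvLe q.2 p.2) : ∃ c, ∀ h ∈ D, wt f p h ≤ max (wt f q h) c := by
  obtain ⟨c, hc⟩ := eventually_atTop.1 h2
  refine ⟨c, fun h hh => ?_⟩
  by_cases hp : h ∈ p.1
  · have h3 : h ∈ q.1 := h1 ⟨hp, hh⟩
    have h4 : ∀ n ≥ max (wt f q h) c, f h n ≤ p.2 n := fun n hn =>
      (wt_spec (hq h h3) h3 n ((le_max_left _ _).trans hn)).trans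
        (hc n ((le_max_right _ _).trans hn))
    conv_lhs => unfold wt
    rw [if_pos hp]
    exact Nat.sInf_le h4
  · conv_lhs => unfold wt
    rw [if_neg hp]
    exact Nat.zero_le _

/-- The data from a system. -/
theorem core_of_psys {f : L → ℕ → ℕ} (hf : Dominating f) (hunc : ∀ n m, ¬ {h | m ≤ f h n}.Countable)
    {P : Set (Pair L)} (hP : PSys f univ P) : Nonempty (Core L) := by
  classical
  refine ⟨⟨f, {e | {h | e h ≠ 0}.Countable ∧ ∃ F : Finset (Pair L), (∀ p ∈ F, p ∈ P) ∧
    ∃ c, ∀ h, e h ≤ max (F.sup fun p => wt f p h) c}, ?_, ?_, ?_, ?_, hf, hunc⟩⟩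
  · exact fun e he => he.1
  · rintro e ⟨he1, F, he2, c, he3⟩ e' ⟨he1', F', he2', c', he3'⟩
    refine ⟨(he1.union he1').mono ?_, F ∪ F', ?_, max c c', fun h => ?_⟩
    · intro h hh
      by_contra hc
      simp only [mem_union, mem_ofPred_eq, not_or, not_not] at hc
      apply hh
      dsimp only
      rw [hc.1, hc.2, max_self]
    · intro p hp
      rcases Finset.mem_union.1 hp with hp | hp
      · exact he2 p hp
      · exact he2' p hp
    · rw [Finset.sup_union]
      refine (max_le_max (he3 h) (he3' h)).trans ?_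
      refine max_le (max_le ?_ ?_) (max_le ?_ ?_)
      · exact le_sup_left.trans (le_max_left _ _)
      · exact (le_max_left c c').trans (le_max_right _ _)
      · exact le_sup_right.trans (le_max_left _ _)
      · exact (le_max_right c c').trans (le_max_right _ _)
  · intro D hD
    obtain ⟨Q, hQ1, hQ2, hQ3⟩ := hP.tr D hD
    obtain ⟨p0, hp0, -⟩ := hP.cov ∅ (empty_subset _) (by
      rw [mk_eq_zero]
      exact aleph0_pos.trans aleph0_lt_bounding)
    obtain ⟨q0, hq0, -⟩ := hQ3 p0 hp0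
    obtain ⟨u, hu⟩ := hQ2.exists_eq_range ⟨q0, hq0⟩
    have huQ : ∀ i, u i ∈ Q := fun i => hu ▸ mem_range_self i
    refine ⟨fun j h => if h ∈ D then (Finset.range (j + 1)).sup (fun i => wt f (u i) h) else 0,
      fun j => ⟨hD.mono ?_, (Finset.range (j + 1)).image u, ?_, 0, fun h => ?_⟩, ?_, ?_⟩
    · intro h hh
      by_contra hc
      exact hh (if_neg hc)
    · intro p hp
      obtain ⟨i, -, rfl⟩ := Finset.mem_image.1 hp
      exact hQ1 (huQ i)
    · rw [Finset.sup_image]
      dsimp only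
      split_ifs
      · exact le_max_left _ _
      · exact Nat.zero_le _
    · intro i j hij h
      dsimp only
      split_ifs
      · exact Finset.sup_mono (Finset.range_mono (Nat.succ_le_succ hij))
      · exact le_rfl
    · rintro e ⟨-, F, hF, c0, he⟩
      have h1 : ∀ p : Pair L, ∃ i c, p ∈ F → ∀ h ∈ D, wt f p h ≤ max (wt f (u i) h) c := by
        intro p
        by_cases hp : p ∈ F
        · obtain ⟨q, hq1, hq2, hq3⟩ := hQ3 p (hF p hp)
          obtain ⟨c, hc⟩ := wt_below (f := f) (hP.bd q (hQ1 hq1)) hq2 hq3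
          rw [hu] at hq1
          obtain ⟨i, rfl⟩ := hq1
          exact ⟨i, c, fun _ => hc⟩
        · exact ⟨0, 0, fun h => absurd h hp⟩
      choose i c hic using h1
      refine ⟨max (F.sup fun p => max (i p) (c p)) c0, fun h hh => (he h).trans ?_⟩
      refine max_le ?_ ((le_max_right _ _).trans (le_max_right _ _))
      refine Finset.sup_le fun p hp => (hic p hp h hh).trans ?_
      have h2 : max (i p) (c p) ≤ F.sup fun p => max (i p) (c p) :=
        Finset.le_sup (f := fun p => max (i p) (c p)) hp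
      refine max_le_max ?_ ((le_max_right _ _).trans (h2.trans (le_max_left _ _)))
      dsimp only
      rw [if_pos hh]
      exact Finset.le_sup (f := fun i => wt f (u i) h)
        (Finset.mem_range.2 (Nat.lt_succ_of_le ((le_max_left _ _).trans
          (h2.trans (le_max_left _ _)))))
  · intro s hs
    set C : Set L := range fun x : ℕ × ℕ => s x.1 x.2 with hC
    have hsC : ∀ n m, s n m ∈ C := fun n m => ⟨(n, m), rfl⟩
    have hCc : C.Countable := countable_range _
    obtain ⟨p, hp, hCp⟩ := hP.cov C (subset_univ _)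
      (lt_of_le_of_lt (le_aleph0_iff_set_countable.2 hCc) aleph0_lt_bounding)
    refine ⟨fun h => if h ∈ C then wt f p h else 0, ⟨hCc.mono ?_, {p}, ?_, 0, ?_⟩,
      fun N => ⟨N, le_rfl, p.2 N + 1, ?_⟩⟩
    · intro h hh
      by_contra hc
      exact hh (if_neg hc)
    · intro q hq
      rw [Finset.mem_singleton.1 hq]
      exact hp
    · intro h
      rw [Finset.sup_singleton]
      dsimp only
      split_ifs
      · exact le_max_left _ _
      · exact Nat.zero_le _
    · dsimp only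
      rw [if_pos (hsC _ _)]
      by_contra hc
      have h2 := wt_spec (hP.bd p hp _ (hCp (hsC N (p.2 N + 1)))) (hCp (hsC N (p.2 N + 1))) N
        (not_lt.1 hc)
      have h3 := hs N (p.2 N + 1)
      omega

/-- The data if `𝔡` is a finite successor of `𝔟`. -/
theorem core_of_succ {n : ℕ} (h : dominating ≤ Order.succ^[n] bounding) :
    ∃ L : Type, Nonempty (Core L) := by
  obtain ⟨A, hA1, hA2⟩ := exists_dominating
  have hA3 := dominating_subtype hA2
  set f : A × ℕ → ℕ → ℕ := fun x k => x.1.1 k + x.2 with hf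
  have hAinf : ℵ₀ ≤ #A := by
    rw [hA1]
    exact aleph0_lt_dominating.le
  have hcard : #(univ : Set (A × ℕ)) ≤ Order.succ^[n] bounding := by
    rw [mk_univ, mk_prod, lift_id, lift_id, mk_nat, mul_eq_left hAinf hAinf aleph0_ne_zero, hA1]
    exact h
  obtain ⟨P, hP, -⟩ := glue_succ f n univ hcard ∅ (by
    rw [mk_eq_zero]
    exact aleph0_pos.trans aleph0_lt_bounding) (fun c hc => hc.elim)
  refine ⟨A × ℕ, core_of_psys (f := f) ?_ ?_ hP⟩
  · intro g
    obtain ⟨h0, hh⟩ := hA3 g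
    exact ⟨(h0, 0), hh⟩
  · intro k m hc
    apply hA3.not_countable
    refine (hc.image Prod.fst).mono ?_
    intro h0 _
    exact ⟨(h0, m), Nat.le_add_left _ _, rfl⟩

end Pool.Agent.H9.LS
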