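import Pool.Agent.H9.LS.FromScale

/-!
# Systems of bounded sets and the gluing lemma

`L` indexes a family `f` of functions. A pair `(N, u)` consists of a set `N` of indices and a
function `u` which bounds all `f h`, `h ∈ N`, modulo finite sets.
-/

open Filter Set Cardinal Pool.Agent.H58.SEL

namespace Pool.Agent.H9.LS

/-- `u ≤ v` for all large arguments. -/
def EvLe (u v : ℕ → ℕ) : Prop := ∀ᶠ n in atTop, u n ≤ v n

theorem EvLe.refl (u : ℕ → ℕ) : EvLe u u := Eventually.of_forall fun _ => le_rfl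

theorem EvLe.trans {u v w : ℕ → ℕ} (h1 : EvLe u v) (h2 : EvLe v w) : EvLe u w := by
  filter_upwards [h1, h2] with n h3 h4
  exact h3.trans h4

/-- The pairs. -/
abbrev Pair (L : Type) : Type := Set L × (ℕ → ℕ)

/-- Each pair of `P` is, on `T`, below a pair of `Q`. -/
def Below {L : Type} (T : Set L) (P Q : Set (Pair L)) : Prop :=
  ∀ p ∈ P, ∃ q ∈ Q, p.1 ∩ T ⊆ q.1 ∧ EvLe q.2 p.2

/-- A system of pairs on `S`. -/
structure PSys {L : Type} (f : L → ℕ → ℕ) (S : Set L) (P : Set (Pair L)) : Prop where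
  sub : ∀ p ∈ P, p.1 ⊆ S
  bd : ∀ p ∈ P, ∀ h ∈ p.1, EvLe (f h) p.2
  tr : ∀ D : Set L, D.Countable → ∃ Q ⊆ P, Q.Countable ∧ Below D P Q
  cov : ∀ T ⊆ S, #T < bounding → ∃ p ∈ P, T ⊆ p.1

/-- The gluing property for the sets with at most `κ` members. -/
def GlueP {L : Type} (f : L → ℕ → ℕ) (κ : Cardinal.{0}) : Prop :=
  ∀ S : Set L, #S ≤ κ → ∀ C : Set (Set L × Set (Pair L)), #C < bounding →
    (∀ c ∈ C, PSys f c.1 c.2) → ∃ P, PSys f S P ∧ ∀ c ∈ C, Below c.1 P c.2

variable {L : Type}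

theorem Below.trans {T T' : Set L} {P Q R : Set (Pair L)} (h : T' ⊆ T) (h1 : Below T P Q)
    (h2 : Below T' Q R) : Below T' P R := by
  intro p hp
  obtain ⟨q, hq, h3, h4⟩ := h1 p hp
  obtain ⟨r, hr, h5, h6⟩ := h2 q hq
  exact ⟨r, hr, fun x hx => h5 ⟨h3 ⟨hx.1, h hx.2⟩, hx.2⟩, h6.trans h4⟩

/-- A countable set of functions is bounded. -/
theorem aleph0_lt_bounding : ℵ₀ < bounding := by
  have h : {κ : Cardinal.{0} | ∃ A : Set (ℕ → ℕ), #A = κ ∧
      ∀ g : ℕ → ℕ, ∃ f ∈ A, ¬ ∀ᶠ n in atTop, f n ≤ g n}.Nonempty := by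
    refine ⟨_, univ, rfl, fun g => ⟨fun n => g n + 1, mem_univ _, fun hc => ?_⟩⟩
    obtain ⟨n, hn⟩ := hc.exists
    dsimp only at hn
    omega
  obtain ⟨A, hA1, hA2⟩ := csInf_mem h
  change #A = bounding at hA1
  rw [← hA1]
  by_contra hc
  have h1 : A.Countable := le_aleph0_iff_set_countable.1 (not_lt.1 hc)
  obtain ⟨g, hg⟩ := exists_bound A h1
  obtain ⟨f, hf1, hf2⟩ := hA2 g
  exact hf2 (hg f hf1)

theorem glue_small (f : L → ℕ → ℕ) {κ : Cardinal.{0}} (hκ : κ < bounding) : GlueP f κ := by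
  classical
  intro S hS C hC hCs
  have h1 : ∀ c : C, ∃ p ∈ c.1.2, S ∩ c.1.1 ⊆ p.1 := by
    intro c
    exact (hCs c.1 c.2).cov _ inter_subset_right
      (lt_of_le_of_lt ((mk_le_mk_of_subset inter_subset_left).trans hS) hκ)
  choose q hq1 hq2 using h1
  obtain ⟨u1, hu1⟩ := exists_bound_of_lt (f '' S) (lt_of_le_of_lt (mk_image_le.trans hS) hκ)
  obtain ⟨u2, hu2⟩ := exists_bound_of_lt (range fun c : C => (q c).2)
    (lt_of_le_of_lt mk_range_le hC)
  refine ⟨{(S, fun n => max (u1 n) (u2 n))}, ⟨?_, ?_, ?_, ?_⟩, ?_⟩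
  · rintro p rfl
    exact Subset.rfl
  · rintro p rfl h hh
    filter_upwards [hu1 _ (mem_image_of_mem f hh)] with n hn
    exact hn.trans (le_max_left _ _)
  · intro D _
    refine ⟨_, Subset.rfl, countable_singleton _, ?_⟩
    rintro p hp
    exact ⟨p, hp, inter_subset_left, EvLe.refl _⟩
  · intro T hT _
    exact ⟨_, rfl, hT⟩
  · rintro c hc p rfl
    refine ⟨q ⟨c, hc⟩, hq1 ⟨c, hc⟩, hq2 ⟨c, hc⟩, ?_⟩
    filter_upwards [hu2 _ (mem_range_self (⟨c, hc⟩ : C))] with n hn
    exact hn.trans (le_max_right _ _)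

section Chain

variable {J : Type} [LinearOrder J]

/-- The part of `S` of rank below `j`. -/
def Part (S : Set L) (r : L → J) (j : J) : Set L := {x | x ∈ S ∧ r x < j}

open Classical in
/-- The systems along a chain. -/
noncomputable def fam [WellFoundedLT J] (f : L → ℕ → ℕ) (S : Set L) (r : L → J)
    (C : Set (Set L × Set (Pair L))) : J → Set (Pair L) :=
  WellFounded.fix (wellFounded_lt (α := J)) fun j F =>
    {p | ∃ (i : J) (hi : i < j), p ∈ F i hi} ∪
      if h : ∃ G, PSys f (Part S r j) G ∧ (∀ (i : J) (hi : i < j), Below (Part S r i) G (F i hi)) ∧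
        ∀ c ∈ C, Below c.1 G c.2 then Classical.choose h else ∅

variable [WellFoundedLT J]

/-- The old pairs. -/
def oldP (f : L → ℕ → ℕ) (S : Set L) (r : L → J) (C : Set (Set L × Set (Pair L))) (j : J) :
    Set (Pair L) := {p | ∃ i < j, p ∈ fam f S r C i}

/-- The good systems on `Part S r j`. -/
def Good (f : L → ℕ → ℕ) (S : Set L) (r : L → J) (C : Set (Set L × Set (Pair L))) (j : J)
    (G : Set (Pair L)) : Prop :=
  PSys f (Part S r j) G ∧ (∀ i < j, Below (Part S r i) G (fam f S r C i)) ∧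
    ∀ c ∈ C, Below c.1 G c.2

theorem fam_eq (f : L → ℕ → ℕ) (S : Set L) (r : L → J) (C : Set (Set L × Set (Pair L))) (j : J) :
    ∃ G, fam f S r C j = oldP f S r C j ∪ G ∧ (G = ∅ ∨ Good f S r C j G) ∧
      ((∃ G, Good f S r C j G) → Good f S r C j G) := by
  classical
  have h0 : oldP f S r C j = {p | ∃ (i : J) (_ : i < j), p ∈ fam f S r C i} := by
    ext p
    constructor
    · rintro ⟨i, hi, hp⟩
      exact ⟨i, hi, hp⟩
    · rintro ⟨i, hi, hp⟩
      exact ⟨i, hi, hp⟩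
  by_cases h : ∃ G, Good f S r C j G
  · refine ⟨Classical.choose h, ?_, Or.inr (Classical.choose_spec h), fun _ =>
      Classical.choose_spec h⟩
    rw [h0, fam, WellFounded.fix_eq]
    rw [dif_pos (by exact h)]
    rfl
  · refine ⟨∅, ?_, Or.inl rfl, fun h' => absurd h' h⟩
    rw [h0, fam, WellFounded.fix_eq]
    rw [dif_neg (by exact h)]

/-- The induction along a chain. -/
theorem fam_spec (f : L → ℕ → ℕ) (S : Set L) (r : L → J) (C : Set (Set L × Set (Pair L)))
    (hC : #C < bounding) (hCs : ∀ c ∈ C, PSys f c.1 c.2)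
    (hJ : ∀ j : J, (∃ A : Set J, #A < bounding ∧ (∀ a ∈ A, a < j) ∧ (∀ i < j, ∃ a ∈ A, i ≤ a) ∧
        GlueP f #(Part S r j)) ∨
      ∀ T ⊆ Part S r j, #T < bounding → ∃ i < j, T ⊆ Part S r i) (j : J) :
    PSys f (Part S r j) (fam f S r C j) ∧
      (∀ i < j, Below (Part S r i) (fam f S r C j) (fam f S r C i)) ∧
      ∀ c ∈ C, Below c.1 (fam f S r C j) c.2 := by
  classical
  refine WellFounded.induction (C := fun j => PSys f (Part S r j) (fam f S r C j) ∧
      (∀ i < j, Below (Part S r i) (fam f S r C j) (fam f S r C i)) ∧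
      ∀ c ∈ C, Below c.1 (fam f S r C j) c.2) (wellFounded_lt (α := J)) j ?_
  clear j
  intro j ih
  obtain ⟨G, hG1, hG2, hG3⟩ := fam_eq f S r C j
  have hmono : ∀ i k, i ≤ k → fam f S r C i ⊆ fam f S r C k := by
    intro i k hik p hp
    rcases hik.eq_or_lt with h | h
    · rw [← h]
      exact hp
    · obtain ⟨G', hG', -, -⟩ := fam_eq f S r C k
      rw [hG']
      exact Or.inl ⟨i, h, hp⟩
  have hpart : ∀ i k, i ≤ k → Part S r i ⊆ Part S r k := fun i k hik x hx =>
    ⟨hx.1, lt_of_lt_of_le hx.2 hik⟩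
  have hold : ∀ i < j, Below (Part S r i) (oldP f S r C j) (fam f S r C i) := by
    rintro i hi p ⟨k, hk, hp⟩
    rcases le_or_gt k i with h | h
    · exact ⟨p, hmono k i h hp, inter_subset_left, EvLe.refl _⟩
    · exact (ih k hk).2.1 i h p hp
  have hoc : ∀ c ∈ C, Below c.1 (oldP f S r C j) c.2 := by
    rintro c hc p ⟨k, hk, hp⟩
    exact (ih k hk).2.2 c hc p hp
  refine ⟨⟨?_, ?_, ?_, ?_⟩, ?_, ?_⟩
  · intro p hp
    rw [hG1] at hp
    rcases hp with ⟨i, hi, hp⟩ | hp
    · exact ((ih i hi).1.sub p hp).trans (hpart i j hi.le)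
    · rcases hG2 with rfl | hG2
      · exact hp.elim
      · exact hG2.1.sub p hp
  · intro p hp
    rw [hG1] at hp
    rcases hp with ⟨i, hi, hp⟩ | hp
    · exact (ih i hi).1.bd p hp
    · rcases hG2 with rfl | hG2
      · exact hp.elim
      · exact hG2.1.bd p hp
  · intro D hD
    -- the new pairs
    obtain ⟨Q1, h1, h2, h3⟩ : ∃ Q ⊆ G, Q.Countable ∧ Below D G Q := by
      rcases hG2 with rfl | hG2
      · exact ⟨∅, Subset.rfl, countable_empty, fun p hp => hp.elim⟩
      · exact hG2.1.tr D hD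
    -- the old pairs
    obtain ⟨Q2, h4, h5, h6⟩ : ∃ Q ⊆ oldP f S r C j, Q.Countable ∧ Below D (oldP f S r C j) Q := by
      by_cases hcase : ∃ i < j, D ∩ Part S r j ⊆ Part S r i
      · obtain ⟨i, hi, hDi⟩ := hcase
        obtain ⟨Q, hQ1, hQ2, hQ3⟩ := (ih i hi).1.tr D hD
        refine ⟨Q, fun q hq => ⟨i, hi, hQ1 hq⟩, hQ2, ?_⟩
        intro p hp
        obtain ⟨q, hq1, hq2, hq3⟩ := hold i hi p hp
        obtain ⟨q', hq1', hq2', hq3'⟩ := hQ3 q hq1
        have hpj : p.1 ⊆ Part S r j := by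
          obtain ⟨k, hk, hp⟩ := hp
          exact ((ih k hk).1.sub p hp).trans (hpart k j hk.le)
        refine ⟨q', hq1', fun x hx => hq2' ⟨hq2 ⟨hx.1, hDi ⟨hx.2, hpj hx.1⟩⟩, hx.2⟩, hq3'.trans hq3⟩
      · push Not at hcase
        have hex : ∀ x : L, ∃ Q : Set (Pair L), r x < j → Q ⊆ fam f S r C (r x) ∧ Q.Countable ∧
            Below D (fam f S r C (r x)) Q := by
          intro x
          by_cases hx : r x < j
          · obtain ⟨Q, hQ⟩ := (ih (r x) hx).1.tr D hD
            exact ⟨Q, fun _ => hQ⟩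
          · exact ⟨∅, fun h => absurd h hx⟩
        choose Q hQ using hex
        refine ⟨⋃ x ∈ D ∩ Part S r j, Q x, ?_, ?_, ?_⟩
        · intro q hq
          simp only [mem_iUnion] at hq
          obtain ⟨x, hx, hq⟩ := hq
          exact ⟨r x, hx.2.2, (hQ x hx.2.2).1 hq⟩
        · refine (hD.mono inter_subset_left).biUnion ?_
          intro x hx
          exact (hQ x hx.2.2).2.1
        · rintro p ⟨i, hi, hp⟩
          obtain ⟨x, hx, hxi⟩ := not_subset.1 (hcase i hi)
          have hir : i ≤ r x := by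
            by_contra hc
            exact hxi ⟨hx.2.1, not_le.1 hc⟩
          obtain ⟨q, hq1, hq2, hq3⟩ := (hQ x hx.2.2).2.2 p (hmono i (r x) hir hp)
          refine ⟨q, ?_, hq2, hq3⟩
          simp only [mem_iUnion]
          exact ⟨x, hx, hq1⟩
    refine ⟨Q2 ∪ Q1, ?_, h5.union h2, ?_⟩
    · rw [hG1]
      exact union_subset_union h4 h1
    · intro p hp
      rw [hG1] at hp
      rcases hp with hp | hp
      · obtain ⟨q, hq1, hq2⟩ := h6 p hp
        exact ⟨q, Or.inl hq1, hq2⟩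
      · obtain ⟨q, hq1, hq2⟩ := h3 p hp
        exact ⟨q, Or.inr hq1, hq2⟩
  · intro T hT hTc
    rcases hJ j with ⟨A, hA1, hA2, hA3, hA4⟩ | hj
    · have hgood : ∃ G, Good f S r C j G := by
        obtain ⟨P, hP1, hP2⟩ := hA4 (Part S r j) le_rfl
          (C ∪ (fun a => (Part S r a, fam f S r C a)) '' A) (by
            refine lt_of_le_of_lt (mk_union_le _ _) ?_
            exact add_lt_of_lt aleph0_lt_bounding.le hC (lt_of_le_of_lt mk_image_le hA1)) (by
            rintro c (hc | ⟨a, ha, rfl⟩)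
            · exact hCs c hc
            · exact (ih a (hA2 a ha)).1)
        refine ⟨P, hP1, ?_, fun c hc => hP2 c (Or.inl hc)⟩
        intro i hi
        obtain ⟨a, ha, hia⟩ := hA3 i hi
        have h1 := hP2 _ (Or.inr (mem_image_of_mem _ ha))
        rcases hia.eq_or_lt with h2 | h2
        · rw [h2]
          exact h1
        · exact h1.trans (hpart i a hia) ((ih a (hA2 a ha)).2.1 i h2)
      obtain ⟨p, hp1, hp2⟩ := (hG3 hgood).1.cov T hT hTc
      refine ⟨p, ?_, hp2⟩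
      rw [hG1]
      exact Or.inr hp1
    · obtain ⟨i, hi, hTi⟩ := hj T hT hTc
      obtain ⟨p, hp1, hp2⟩ := (ih i hi).1.cov T hTi hTc
      exact ⟨p, hmono i j hi.le hp1, hp2⟩
  · intro i hi p hp
    rw [hG1] at hp
    rcases hp with hp | hp
    · exact hold i hi p hp
    · rcases hG2 with rfl | hG2
      · exact hp.elim
      · exact hG2.2.1 i hi p hp
  · intro c hc p hp
    rw [hG1] at hp
    rcases hp with hp | hp
    · exact hoc c hc p hp
    · rcases hG2 with rfl | hG2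
      · exact hp.elim
      · exact hG2.2.2 c hc p hp

end Chain

end Pool.Agent.H9.LS
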