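import Pool.Agent.H9.LS.Core

/-!
# The space is `L`-selective
-/

open Filter Topology Set Pool.Agent.H58.SEL

namespace Pool.Agent.H9.LS

/-- A criterion for `L`-selectivity: sequences of closed sets. -/
theorem selective_of_seq {Z : Type} [TopologicalSpace Z]
    (h : ∀ (S : ℕ → Set Z) (z : Z), (∀ n, (S n).Nonempty) → (∀ n, IsClosed (S n)) →
      (∀ U ∈ 𝓝 z, ∀ᶠ n in atTop, (S n ∩ U).Nonempty) →
      ∃ a : ℕ → Z, (∀ᶠ n in atTop, a n ∈ S n) ∧ Tendsto a atTop (𝓝 z)) :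
    Selective ℕ∞ Z := by
  classical
  intro φ hφ hne hcl
  obtain ⟨z, hz⟩ := hne ⊤
  obtain ⟨a, ha1, ha2⟩ := h (fun n => φ n) z (fun n => hne n) (fun n => hcl n) (by
    intro U hU
    have h1 : {y | (φ y ∩ interior U).Nonempty} ∈ 𝓝 (⊤ : ℕ∞) :=
      (hφ _ isOpen_interior).mem_nhds ⟨z, hz, mem_interior_iff_mem_nhds.2 hU⟩
    have h2 := ENat.tendsto_natCast_nhds_top h1
    filter_upwards [h2] with n hn
    exact Set.Nonempty.mono (inter_subset_inter_right _ interior_subset) hn)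
  choose c hc using hne
  set b : ℕ → Z := fun n => if a n ∈ φ n then a n else c n with hb
  have hb1 : ∀ n : ℕ, b n ∈ φ (n : ℕ∞) := by
    intro n
    rw [hb]
    simp only
    split_ifs with h1
    · exact h1
    · exact hc n
  have hb2 : Tendsto b atTop (𝓝 z) := by
    refine ha2.congr' ?_
    filter_upwards [ha1] with n hn
    rw [hb]
    simp only
    rw [if_pos hn]
  set f : ℕ∞ → Z := fun m => if m = ⊤ then z else b m.toNat with hf
  have hft : f ⊤ = z := if_pos rfl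
  have hfn : ∀ n : ℕ, f (n : ℕ∞) = b n := fun n => by
    rw [hf]
    simp only [ENat.natCast_ne_top, if_false, ENat.toNat_natCast]
  refine ⟨f, ?_, ?_⟩
  · rw [continuous_iff_continuousAt]
    intro m
    by_cases hm : m = ⊤
    · subst hm
      intro U hU
      rw [hft] at hU
      obtain ⟨N, hN⟩ := eventually_atTop.1 (hb2 hU)
      change f ⁻¹' U ∈ 𝓝 (⊤ : ℕ∞)
      refine mem_of_superset (Ioi_mem_nhds (a := (N : ℕ∞)) (ENat.natCast_lt_top N)) ?_
      intro k hk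
      by_cases hkt : k = ⊤
      · rw [mem_preimage, hkt, hft]
        exact mem_of_mem_nhds hU
      · lift k to ℕ using hkt
        have hk' : N < k := by
          have h2 : (N : ℕ∞) < (k : ℕ∞) := hk
          exact_mod_cast h2
        rw [mem_preimage, hfn]
        exact hN k hk'.le
    · intro U hU
      rw [mem_map, ENat.mem_nhds_iff hm]
      exact (mem_of_mem_nhds hU : f m ∈ U)
  · intro m
    by_cases hm : m = ⊤
    · rw [hm, hft]
      exact hz
    · lift m to ℕ using hm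
      rw [hfn]
      exact hb1 m

variable {L : Type} {c : Core L}

/-- The fibre `(n, m)` is contained in `S`. -/
def Full (S : Set (Sp c)) (n m : ℕ) : Prop := ∀ x : Pt c, x.n = n → x.m = m → inc x ∈ S

/-- At the points of the fibres. -/
theorem seq_inc (x : Pt c) (S : ℕ → Set (Sp c)) (hcl : ∀ n, IsClosed (S n))
    (hS : ∀ U ∈ 𝓝 (inc x), ∀ᶠ n in atTop, (S n ∩ U).Nonempty) :
    ∀ᶠ n in atTop, inc x ∈ S n := by
  set G : Set (Sp c) := {z | (∃ y : Pt c, ¬ (y.n = x.n ∧ y.m = x.m) ∧ z = inc y) ∨ z = oo c ∨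
    ∃ y : Pt c, y.n = x.n ∧ y.m = x.m ∧ (∃ k, inc x ∉ S k ∧ inc y ∈ S k) ∧ z = inc y} with hGdef
  have hmem : ∀ y : Pt c, inc y ∈ G ↔ ¬ (y.n = x.n ∧ y.m = x.m) ∨
      (y.n = x.n ∧ y.m = x.m ∧ ∃ k, inc x ∉ S k ∧ inc y ∈ S k) := by
    intro y
    constructor
    · rintro (⟨y', h1, h2⟩ | h1 | ⟨y', h1, h2, h3, h4⟩)
      · rw [← inc_inj h2] at h1
        exact Or.inl h1
      · exact (inc_ne y h1).elim
      · rw [← inc_inj h4] at h1 h2 h3
        exact Or.inr ⟨h1, h2, h3⟩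
    · rintro (h1 | ⟨h1, h2, h3⟩)
      · exact Or.inl ⟨y, h1, rfl⟩
      · exact Or.inr (Or.inr ⟨y, h1, h2, h3, rfl⟩)
  have hG : IsClosed G := by
    rw [isClosed_sp]
    refine ⟨fun n m => ?_, Or.inl (Or.inr (Or.inl rfl))⟩
    by_cases hnm : n = x.n ∧ m = x.m
    · obtain ⟨rfl, rfl⟩ := hnm
      left
      have h1 : (⋃ k : ℕ, {y : Pt c | y.n = x.n ∧ y.m = x.m ∧ inc x ∉ S k ∧ inc y ∈ S k}).Countable := by
        refine countable_iUnion fun k => ?_
        by_cases hk : inc x ∈ S k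
        · refine countable_empty.mono ?_
          rintro y ⟨-, -, h2, -⟩
          exact h2 hk
        · rcases (isClosed_sp.1 (hcl k)).1 x.n x.m with h2 | h2
          · refine h2.mono ?_
            rintro y ⟨h3, h4, -, h5⟩
            exact ⟨h3, h4, h5⟩
          · exact absurd (h2 x rfl rfl) hk
      refine h1.mono ?_
      rintro y ⟨h2, h3, h4⟩
      rcases (hmem y).1 h4 with h5 | ⟨-, -, k, h5, h6⟩
      · exact absurd ⟨h2, h3⟩ h5
      · exact mem_iUnion.2 ⟨k, h2, h3, h5, h6⟩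
    · right
      intro y hy1 hy2
      rw [hmem]
      left
      rw [hy1, hy2]
      exact hnm
  have hxG : inc x ∉ G := by
    rw [hmem]
    rintro (h1 | ⟨-, -, k, h1, h2⟩)
    · exact h1 ⟨rfl, rfl⟩
    · exact h1 h2
  filter_upwards [hS _ (hG.isOpen_compl.mem_nhds hxG)] with k hk
  by_contra hc
  obtain ⟨z, hz1, hz2⟩ := hk
  rcases sp_cases z with rfl | ⟨y, rfl⟩
  · exact hz2 (Or.inr (Or.inl rfl))
  · apply hz2
    rw [hmem]
    by_cases h1 : y.n = x.n ∧ y.m = x.m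
    · exact Or.inr ⟨h1.1, h1.2, k, hc, hz1⟩
    · exact Or.inl h1

/-- At the point `∞`. -/
theorem seq_oo (S : ℕ → Set (Sp c)) (hcl : ∀ n, IsClosed (S n))
    (hS : ∀ U ∈ 𝓝 (oo c), ∀ᶠ n in atTop, (S n ∩ U).Nonempty) :
    ∃ a : ℕ → Sp c, (∀ᶠ n in atTop, a n ∈ S n) ∧ Tendsto a atTop (𝓝 (oo c)) := by
  classical
  -- all `h` in the countable fibres
  set D : Set L := ⋃ k : ℕ, ⋃ n : ℕ, ⋃ m : ℕ,
    {h | ∃ x : Pt c, inc x ∈ S k ∧ x.n = n ∧ x.m = m ∧ ¬ Full (S k) n m ∧ x.h = h} with hD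
  have hDc : D.Countable := by
    refine countable_iUnion fun k => countable_iUnion fun n => countable_iUnion fun m => ?_
    by_cases hF : Full (S k) n m
    · refine countable_empty.mono ?_
      rintro h ⟨x, -, -, -, h1, -⟩
      exact h1 hF
    · rcases (isClosed_sp.1 (hcl k)).1 n m with h2 | h2
      · refine (h2.image fun x => x.h).mono ?_
        rintro h ⟨x, h3, h4, h5, -, rfl⟩
        exact ⟨x, ⟨h4, h5, h3⟩, rfl⟩
      · exact absurd h2 hF
  have hDm : ∀ (k : ℕ) (x : Pt c), inc x ∈ S k → ¬ Full (S k) x.n x.m → x.h ∈ D := by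
    intro k x h1 h2
    exact mem_iUnion.2 ⟨k, mem_iUnion.2 ⟨x.n, mem_iUnion.2 ⟨x.m, x, h1, rfl, rfl, h2, rfl⟩⟩⟩
  obtain ⟨g, hg1, hg2, hg3⟩ := c.trace D hDc
  -- the set of the possible values
  set W : ℕ → ℕ → Prop := fun k w =>
    (w ≤ k ∧ ∃ x : Pt c, inc x ∈ S k ∧ ¬ Full (S k) x.n x.m ∧ w ≤ x.n ∧ g w x.h ≤ x.n) ∨
    ∃ m, Full (S k) w m with hW
  have hbd : ∀ k, oo c ∉ S k → ∃ B, ∀ w, W k w → w ≤ B := by
    intro k hk
    rcases (isClosed_sp.1 (hcl k)).2 with h1 | ⟨N, e, he, h1⟩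
    · exact absurd h1 hk
    · refine ⟨max k N, ?_⟩
      rintro w (⟨h2, -⟩ | ⟨m, h2⟩)
      · exact h2.trans (le_max_left _ _)
      · obtain ⟨x, hx1, hx2, hx3⟩ := exists_fibre he w m
        rcases h1 x (h2 x hx1 hx2) with h3 | h3
        · rw [hx1] at h3
          exact h3.le.trans (le_max_right _ _)
        · omega
  have hev : ∀ J, ∀ᶠ k in atTop, oo c ∉ S k → ∃ w ≥ J, W k w := by
    intro J
    set G : Set (Sp c) := {z | ∃ y : Pt c, (y.n < J ∨ y.n < g J y.h) ∧ z = inc y} with hGdef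
    have hmem : ∀ y : Pt c, inc y ∈ G ↔ (y.n < J ∨ y.n < g J y.h) := by
      intro y
      constructor
      · rintro ⟨y', h1, h2⟩
        rw [inc_inj h2]
        exact h1
      · intro h1
        exact ⟨y, h1, rfl⟩
    have hG : IsClosed G := by
      refine closed_of_countable J (hg1 J) ?_ ?_
      · intro y hy
        exact (hmem y).1 hy
      · intro n hn m
        right
        intro y hy1 _
        rw [hmem]
        left
        omega
    have h0 : oo c ∉ G := by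
      rintro ⟨y, -, hy⟩
      exact inc_ne y hy.symm
    filter_upwards [hS _ (nhds_oo hG h0), eventually_ge_atTop J] with k hk hkJ hk0
    obtain ⟨z, hz1, hz2⟩ := hk
    rcases sp_cases z with rfl | ⟨x, rfl⟩
    · exact absurd hz1 hk0
    · have h3 : ¬ (x.n < J ∨ x.n < g J x.h) := fun h => hz2 ((hmem x).2 h)
      push Not at h3
      by_cases hF : Full (S k) x.n x.m
      · exact ⟨x.n, h3.1, Or.inr ⟨x.m, hF⟩⟩
      · exact ⟨J, le_rfl, Or.inl ⟨hkJ, x, hz1, hF, h3.1, h3.2⟩⟩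
  -- choose the largest value
  have hmax : ∀ k, ∃ w, oo c ∉ S k → (∃ v, W k v) → W k w ∧ ∀ v, W k v → v ≤ w := by
    intro k
    by_cases h1 : oo c ∉ S k ∧ ∃ v, W k v
    · obtain ⟨B, hB⟩ := hbd k h1.1
      refine ⟨Nat.findGreatest (W k) B, fun _ _ => ⟨?_, fun v hv => ?_⟩⟩
      · obtain ⟨v, hv⟩ := h1.2
        exact Nat.findGreatest_spec (hB v hv) hv
      · exact Nat.le_findGreatest (hB v hv) hv
    · refine ⟨0, fun h2 h3 => absurd ⟨h2, h3⟩ h1⟩
  choose w hw using hmax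
  have hwt : ∀ J, ∀ᶠ k in atTop, oo c ∉ S k → W k (w k) ∧ J ≤ w k := by
    intro J
    filter_upwards [hev J] with k hk hk0
    obtain ⟨v, hv1, hv2⟩ := hk hk0
    have h1 := hw k hk0 ⟨v, hv2⟩
    exact ⟨h1.1, hv1.trans (h1.2 v hv2)⟩
  -- the two types
  set T1 : ℕ → Prop := fun k =>
    ∃ x : Pt c, inc x ∈ S k ∧ ¬ Full (S k) x.n x.m ∧ w k ≤ x.n ∧ g (w k) x.h ≤ x.n with hT1
  have hT2 : ∀ k, W k (w k) → ¬ T1 k → ∃ m, Full (S k) (w k) m := by
    rintro k (⟨-, h1⟩ | h1) h2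
    · exact absurd h1 h2
    · exact h1
  have hx : ∀ k, ∃ x : Pt c, T1 k → inc x ∈ S k ∧ x.h ∈ D ∧ w k ≤ x.n ∧ g (w k) x.h ≤ x.n := by
    intro k
    by_cases h1 : T1 k
    · obtain ⟨x, h2, h3, h4, h5⟩ := h1
      exact ⟨x, fun _ => ⟨h2, hDm k x h2 h3, h4, h5⟩⟩
    · obtain ⟨x, -⟩ := exists_fibre (hg1 0) 0 0
      exact ⟨x, fun h => absurd h h1⟩
  choose x hx using hx
  have hmm : ∀ k, ∃ m, W k (w k) → ¬ T1 k → Full (S k) (w k) m := by
    intro k
    by_cases h1 : W k (w k) ∧ ¬ T1 k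
    · obtain ⟨m, hm⟩ := hT2 k h1.1 h1.2
      exact ⟨m, fun _ _ => hm⟩
    · exact ⟨0, fun h2 h3 => absurd ⟨h2, h3⟩ h1⟩
  choose mm hmm using hmm
  -- the function to be dominated
  have hfin : ∀ n : ℕ, {k | oo c ∉ S k ∧ w k = n}.Finite := by
    intro n
    obtain ⟨K, hK⟩ := eventually_atTop.1 (hwt (n + 1))
    refine (finite_lt_nat K).subset ?_
    rintro k ⟨hk1, hk2⟩
    by_contra hc
    have h1 := (hK k (not_lt.1 hc) hk1).2
    omega
  have hF : ∀ n : ℕ, ∃ B, ∀ k, oo c ∉ S k → w k = n → mm k ≤ B := by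
    intro n
    obtain ⟨B, hB⟩ := ((hfin n).image mm).bddAbove
    exact ⟨B, fun k h1 h2 => hB ⟨k, ⟨h1, h2⟩, rfl⟩⟩
  choose F hF using hF
  obtain ⟨h0, hh0⟩ := c.dom F
  obtain ⟨n0, hn0⟩ := eventually_atTop.1 hh0
  refine ⟨fun k => if oo c ∈ S k then oo c else if T1 k then inc (x k) else
    if hk : mm k ≤ c.f h0 (w k) then inc ⟨w k, mm k, h0, hk⟩ else oo c, ?_, ?_⟩
  · filter_upwards [hwt n0] with k hk
    split_ifs with h1 h2 h3
    · exact h1
    · exact (hx k h2).1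
    · exact hmm k (hk h1).1 h2 _ rfl rfl
    · exact absurd ((hF (w k) k h1 rfl).trans (hn0 _ (hk h1).2)) h3
  · refine tendsto_oo ?_ ?_
    · intro N
      filter_upwards [hwt N] with k hk y hy
      split_ifs at hy with h1 h2 h3
      · exact (inc_ne y hy.symm).elim
      · rw [← inc_inj hy]
        exact (hk h1).2.trans (hx k h2).2.2.1
      · rw [← inc_inj hy]
        exact (hk h1).2
      · exact (inc_ne y hy.symm).elim
    · intro e he
      obtain ⟨j, hj⟩ := hg3 e he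
      filter_upwards [hwt (max j (e h0))] with k hk y hy
      split_ifs at hy with h1 h2 h3
      · exact (inc_ne y hy.symm).elim
      · rw [← inc_inj hy]
        obtain ⟨h4, h5, h6, h7⟩ := hx k h2
        have h8 : j ≤ w k := (le_max_left _ _).trans (hk h1).2
        refine (hj _ h5).trans (max_le ?_ ?_)
        · exact (hg2 j (w k) h8 _).trans h7
        · exact h8.trans h6
      · rw [← inc_inj hy]
        exact (le_max_right _ _).trans (hk h1).2
      · exact (inc_ne y hy.symm).elim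

/-- The space is `L`-selective. -/
theorem selective (c : Core L) : Selective ℕ∞ (Sp c) := by
  refine selective_of_seq fun S z _ hcl hS => ?_
  rcases sp_cases z with rfl | ⟨x, rfl⟩
  · exact seq_oo S hcl hS
  · exact ⟨fun _ => inc x, seq_inc x S hcl hS, tendsto_const_nhds⟩

end Pool.Agent.H9.LS
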